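import Pool.Agent.Helper48.TC.Glob
import Pool.Agent.Helper48.SW.Expl

set_option autoImplicit false
set_option linter.unusedSectionVars false

/-! # From local to global, with weights -/

namespace Pool.Agent.Helper48.WC

open Finset MvPolynomial Pool.Agent.Helper48.SN Pool.Agent.Helper48.SW Pool.Agent.Helper48.TC

variable {n : ℕ}

theorem KV_map {N : ℕ} (F : MvPolynomial (Fin N) ℂ →ₐ[ℂ] MvPolynomial (Fin N) ℂ)
    (g v : Fin N → MvPolynomial (Fin N) ℂ) (h : v ∈ KV g) :
    (fun i => F (v i)) ∈ KV fun i => F (g i) := by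
  obtain ⟨B, hB, hB0, hv⟩ := h
  refine ⟨fun i j => F (B i j), fun i j => ?_, fun i => ?_, fun i => ?_⟩
  · beta_reduce
    rw [hB i j, map_neg]
  · beta_reduce
    rw [hB0, map_zero]
  · beta_reduce
    rw [hv i, map_sum]
    exact Finset.sum_congr rfl fun j _ => by rw [map_mul]

theorem KV_rt {N : ℕ} (w : Fin N → ℕ) (hw : ∀ i, 0 < w i)
    (g v : Fin N → MvPolynomial (Fin N) ℂ)
    (h : (fun i => xp w (v i)) ∈ KV fun i => xp w (g i)) : v ∈ KV g := by
  obtain ⟨B, hB, hB0, hv⟩ := h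
  refine ⟨fun i j => rt w (B i j), fun i j => ?_, fun i => ?_, fun i => ?_⟩
  · beta_reduce
    rw [hB i j, map_neg]
  · beta_reduce
    rw [hB0, map_zero]
  · have h1 := congrArg (rt w) (hv i)
    beta_reduce at h1
    rw [rt_xp w hw, map_sum] at h1
    rw [h1]
    refine Finset.sum_congr rfl fun j _ => ?_
    rw [mul_comm (B i j), rt_mul w hw, mul_comm]

/-- **From local to global.** -/
theorem KV_global_w (w : Fin (n + 1) → ℕ) (hw : ∀ i, 0 < w i)
    (g : Fin (n + 1) → MvPolynomial (Fin (n + 1)) ℂ) {J : Type} [Fintype J]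
    (p : J → Fin (n + 1) → ℂ) (hp : ∀ j, p j ≠ 0)
    (hsing : ∀ q : Fin (n + 1) → ℂ, q ≠ 0 → (∀ i, eval q (g i) = 0) →
      ∃ (j : J) (t : ℂ), ∀ i, q i = t ^ w i * p j i)
    (v : Fin (n + 1) → MvPolynomial (Fin (n + 1)) ℂ) (hv : ∑ j, v j * g j = 0)
    (hloc : ∀ q : Fin (n + 1) → ℂ, q ≠ 0 → (∀ i, eval q (g i) = 0) →
      ∃ a, eval q a ≠ 0 ∧ a • v ∈ KV g) : v ∈ KV g := by
  classical
  set W : ℕ := ∏ i, w i with hW
  have hW0 : 0 < W := Finset.prod_pos fun i _ => hw i
  have hroot : ∀ j i, ∃ r : ℂ, r ^ w i = p j i := fun j i =>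
    IsAlgClosed.exists_pow_nat_eq (p j i) (hw i)
  choose r hr using hroot
  refine KV_rt w hw g v (KV_global (fun i => xp w (g i))
    (J := J × (Fin (n + 1) → {z : ℂ // z ∈ Polynomial.nthRootsFinset W (1 : ℂ)}))
    (fun x i => r x.1 i * (x.2 i : ℂ)) (fun x h0 => ?_) (fun u hu0 hu => ?_)
    (fun i => xp w (v i)) ?_ (fun u hu0 hu => ?_))
  · apply hp x.1
    funext i
    have h1 := congrFun h0 i
    beta_reduce at h1
    have h2 : (x.2 i : ℂ) ≠ 0 := by
      intro h3
      have h4 := (Polynomial.mem_nthRootsFinset hW0 (1 : ℂ)).1 (x.2 i).2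
      rw [h3, zero_pow hW0.ne'] at h4
      exact zero_ne_one h4
    rw [← hr x.1 i, (mul_eq_zero.1 h1).resolve_right h2, zero_pow (hw i).ne']
    rfl
  · obtain ⟨j, t, hj⟩ := hsing (fun i => u i ^ w i) (fun h0 => by
      apply hu0
      funext i
      exact eq_zero_of_pow_eq_zero (congrFun h0 i)) (fun i => by
      rw [← eval_xp]
      exact hu i)
    have h1 : ∀ i, ∃ z : ℂ, z ∈ Polynomial.nthRootsFinset W (1 : ℂ) ∧ u i = t * (r j i * z) := by
      intro i
      have h2 : u i ^ w i = (t * r j i) ^ w i := by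
        rw [mul_pow, hr j i]
        exact hj i
      by_cases h3 : t * r j i = 0
      · refine ⟨1, (Polynomial.mem_nthRootsFinset hW0 (1 : ℂ)).2 (one_pow _), ?_⟩
        rw [h3, zero_pow (hw i).ne'] at h2
        rw [mul_one, h3]
        exact eq_zero_of_pow_eq_zero h2
      · refine ⟨u i / (t * r j i), (Polynomial.mem_nthRootsFinset hW0 (1 : ℂ)).2 ?_, ?_⟩
        · obtain ⟨s, hs⟩ := Finset.dvd_prod_of_mem w (Finset.mem_univ i)
          rw [hW, hs, pow_mul, div_pow, h2, div_self (pow_ne_zero _ h3), one_pow]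
        · calc u i = u i / (t * r j i) * (t * r j i) := (div_mul_cancel₀ _ h3).symm
            _ = t * (r j i * (u i / (t * r j i))) := by ring
    choose z hz hz2 using h1
    refine ⟨(j, fun i => ⟨z i, hz i⟩), t, ?_⟩
    funext i
    rw [Pi.smul_apply, smul_eq_mul]
    exact hz2 i
  · rw [← map_zero (xp w), ← hv, map_sum]
    exact Finset.sum_congr rfl fun j _ => by rw [map_mul]
  · obtain ⟨a, ha, hav⟩ := hloc (fun i => u i ^ w i) (fun h0 => by
      apply hu0
      funext i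
      exact eq_zero_of_pow_eq_zero (congrFun h0 i)) (fun i => by
      rw [← eval_xp]
      exact hu i)
    refine ⟨xp w a, by rwa [eval_xp], ?_⟩
    have h1 := KV_map (xp w) g (a • v) hav
    have h2 : (fun i => xp w ((a • v) i)) = xp w a • fun i => xp w (v i) := by
      funext i
      rw [Pi.smul_apply, Pi.smul_apply, smul_eq_mul, smul_eq_mul, map_mul]
    rwa [h2] at h1

/-- a hypersurface with finitely many singular orbits has no multiple components -/
theorem no_square_w (hn : 2 ≤ n) (w : Fin (n + 1) → ℕ) (hw : ∀ i, 0 < w i)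
    (φ : MvPolynomial (Fin (n + 1)) ℂ) (S : Finset (Fin (n + 1) → ℂ))
    (hS : ∀ q : Fin (n + 1) → ℂ, q ≠ 0 → (∀ i, eval q (pderiv i φ) = 0) →
      ∃ p ∈ S, ∃ t : ℂ, ∀ i, q i = t ^ w i * p i)
    (P G : MvPolynomial (Fin (n + 1)) ℂ) (e : ℕ) (he : 0 < e) (hP : IsWeightedHomogeneous w P e)
    (hφ : φ = P * P * G) : False := by
  classical
  set W : ℕ := ∏ i, w i with hW
  have hW0 : 0 < W := Finset.prod_pos fun i _ => hw i
  have hroot : ∀ (p : Fin (n + 1) → ℂ) i, ∃ r : ℂ, r ^ w i = p i := fun p i =>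
    IsAlgClosed.exists_pow_nat_eq (p i) (hw i)
  choose r hr using hroot
  obtain ⟨c, hc0, hc⟩ := exists_hyper
    (J := {p : S // (p : Fin (n + 1) → ℂ) ≠ 0} ×
      (Fin (n + 1) → {z : ℂ // z ∈ Polynomial.nthRootsFinset W (1 : ℂ)}))
    (fun x i => r x.1.1 i * (x.2 i : ℂ)) (fun x h0 => by
      apply x.1.2
      funext i
      have h1 := congrFun h0 i
      beta_reduce at h1
      have h2 : (x.2 i : ℂ) ≠ 0 := by
        intro h3
        have h4 := (Polynomial.mem_nthRootsFinset hW0 (1 : ℂ)).1 (x.2 i).2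
        rw [h3, zero_pow hW0.ne'] at h4
        exact zero_ne_one h4
      rw [← hr x.1.1 i, (mul_eq_zero.1 h1).resolve_right h2, zero_pow (hw i).ne']
      rfl)
  have hxP : (xp w P).IsHomogeneous e := xp_hom w P e hP
  have hres : (res c (xp w P)).IsHomogeneous e := by
    have h1 := hxP.aeval (fun i => (Fin.cons (-C (c 0)⁻¹ * ∑ l : Fin n, C (c l.succ) * X l)
      (fun l => X l) : Fin (n + 1) → MvPolynomial (Fin n) ℂ) i) (n := 1) (fun i => by
        refine Fin.cases ?_ (fun l => ?_) i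
        · rw [Fin.cons_zero, ← map_neg]
          refine IsHomogeneous.C_mul (IsHomogeneous.sum _ _ _ fun l _ => ?_) _
          exact (isHomogeneous_X ℂ l).C_mul _
        · rw [Fin.cons_succ]
          exact isHomogeneous_X ℂ l)
    rwa [one_mul] at h1
  obtain ⟨y, hy0, hy⟩ := exists_zero_w hn (fun _ => 1) (fun _ => one_pos) (res c (xp w P)) e he
    hres
  obtain ⟨x, hx, hxs, hxl⟩ := eval_res c hc0 y
  rw [hx, eval_xp] at hy
  have hx0 : x ≠ 0 := by
    intro h2
    apply hy0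
    funext l
    rw [← hxs l, h2]
    rfl
  obtain ⟨p, hp, t, ht⟩ := hS (fun i => x i ^ w i) (fun h0 => by
      apply hx0
      funext i
      exact eq_zero_of_pow_eq_zero (congrFun h0 i)) (fun j => by
    rw [hφ, pderiv_mul, pderiv_mul]
    simp only [map_add, map_mul, hy, mul_zero, zero_mul, add_zero])
  have hp0 : p ≠ 0 := by
    intro h3
    apply hx0
    funext i
    have h4 := ht i
    rw [h3, Pi.zero_apply, mul_zero] at h4
    exact eq_zero_of_pow_eq_zero h4
  have h1 : ∀ i, ∃ z : ℂ, z ∈ Polynomial.nthRootsFinset W (1 : ℂ) ∧ x i = t * (r p i * z) := by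
    intro i
    have h2 : x i ^ w i = (t * r p i) ^ w i := by
      rw [mul_pow, hr p i]
      exact ht i
    by_cases h3 : t * r p i = 0
    · refine ⟨1, (Polynomial.mem_nthRootsFinset hW0 (1 : ℂ)).2 (one_pow _), ?_⟩
      rw [h3, zero_pow (hw i).ne'] at h2
      rw [mul_one, h3]
      exact eq_zero_of_pow_eq_zero h2
    · refine ⟨x i / (t * r p i), (Polynomial.mem_nthRootsFinset hW0 (1 : ℂ)).2 ?_, ?_⟩
      · obtain ⟨s, hs⟩ := Finset.dvd_prod_of_mem w (Finset.mem_univ i)
        rw [hW, hs, pow_mul, div_pow, h2, div_self (pow_ne_zero _ h3), one_pow]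
      · calc x i = x i / (t * r p i) * (t * r p i) := (div_mul_cancel₀ _ h3).symm
          _ = t * (r p i * (x i / (t * r p i))) := by ring
  choose z hz hz2 using h1
  have h3 : t * ∑ i, c i * (r p i * z i) = 0 := by
    rw [← hxl, Finset.mul_sum]
    refine Finset.sum_congr rfl fun i _ => ?_
    rw [hz2 i]
    ring
  rcases mul_eq_zero.1 h3 with h4 | h4
  · apply hx0
    funext i
    rw [hz2 i, h4, zero_mul]
    rfl
  · exact hc (⟨⟨p, hp⟩, hp0⟩, fun i => ⟨z i, hz i⟩) h4

end Pool.Agent.Helper48.WC
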