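import Pool.Agent.Helper48.WC.Sl
import Pool.Agent.Helper48.TC.Loc

set_option autoImplicit false
set_option linter.unusedSectionVars false

/-! # The local step at a quasi-homogeneous singular point of a weighted cone -/

namespace Pool.Agent.Helper48.WC

open Finset MvPolynomial Pool.Agent.H628R4.TP Pool.Agent.K3h38.SM Pool.Agent.Helper48.SN
  Pool.Agent.Helper48.SW Pool.Agent.Helper48.TC

variable {n : ℕ}

/-- the chart `x_j = (1 + z) ^ w_j ξ_j(y)` -/
noncomputable def chW (w : Fin (n + 1) → ℕ) (ξ : Fin (n + 1) → PS (Fin n)) (j : Fin (n + 1)) :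
    PS (Fin (n + 1)) :=
  (1 + MvPowerSeries.X (Fin.last n)) ^ w j * rn (ξ j)

theorem aeval_pow_rn (U : PS (Fin (n + 1))) (w : Fin (n + 1) → ℕ)
    (ξ : Fin (n + 1) → PS (Fin n)) (p : MvPolynomial (Fin (n + 1)) ℂ) (l : ℕ)
    (hp : IsWeightedHomogeneous w p l) :
    (aeval (fun j => U ^ w j * rn (ξ j)) p : PS (Fin (n + 1))) = U ^ l * rn (aeval ξ p) := by
  rw [p.as_sum, map_sum, map_sum, map_sum, Finset.mul_sum]
  refine Finset.sum_congr rfl fun m hm => ?_
  have h1 : ∑ i, w i * m i = l := by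
    have h2 := hp (mem_support_iff.1 hm)
    rw [← h2, weight_sum]
    exact Finset.sum_congr rfl fun i _ => mul_comm _ _
  rw [aeval_monomial, aeval_monomial, Finsupp.prod_fintype _ _ (by simp),
    Finsupp.prod_fintype _ _ (by simp), map_mul, map_prod, AlgHom.commutes]
  simp only [mul_pow, map_pow, ← pow_mul]
  rw [Finset.prod_mul_distrib, Finset.prod_pow_eq_pow_sum, h1]
  ring

theorem const_chW (w : Fin (n + 1) → ℕ) (ξ : Fin (n + 1) → PS (Fin n)) (j : Fin (n + 1)) :
    MvPowerSeries.constantCoeff (chW w ξ j) = MvPowerSeries.constantCoeff (ξ j) := by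
  rw [chW, map_mul, map_pow, map_add, map_one, MvPowerSeries.constantCoeff_X, add_zero, one_pow,
    one_mul, const_rn]

theorem coeff_single (i : Fin (n + 1)) (g : PS (Fin (n + 1))) :
    MvPowerSeries.coeff (Finsupp.single i 1) g = MvPowerSeries.constantCoeff (pp i g) := by
  rw [← MvPowerSeries.coeff_zero_eq_constantCoeff_apply, pp_apply, MvPowerSeries.coeff_pderiv,
    zero_add, Finsupp.coe_zero, Pi.zero_apply, Nat.cast_zero, zero_add, mul_one]

theorem pp_pow_zero (i : Fin (n + 1)) (U : PS (Fin (n + 1))) (hU : pp i U = 0) (m : ℕ) :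
    pp i (U ^ m) = 0 := by
  induction m with
  | zero =>
    rw [pow_zero, pp_apply]
    exact (MvPowerSeries.pderiv ℂ i).map_one_eq_zero
  | succ m ih => rw [pow_succ, pp_mul, ih, hU, mul_zero, mul_zero, add_zero]

theorem pp_pow_one (i : Fin (n + 1)) (U : PS (Fin (n + 1))) (hU : pp i U = 1) (m : ℕ) :
    pp i (U ^ m) = (m : PS (Fin (n + 1))) * U ^ (m - 1) := by
  induction m with
  | zero =>
    rw [pow_zero, Nat.cast_zero, zero_mul, pp_apply]
    exact (MvPowerSeries.pderiv ℂ i).map_one_eq_zero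
  | succ m ih =>
    rw [pow_succ, pp_mul, ih, hU, mul_one, Nat.add_sub_cancel]
    rcases Nat.eq_zero_or_pos m with h | h
    · subst h
      simp
    · have h1 : U * ((m : PS (Fin (n + 1))) * U ^ (m - 1)) =
          (m : PS (Fin (n + 1))) * U ^ m := by
        obtain ⟨k, rfl⟩ := Nat.exists_eq_add_of_le h
        rw [show 1 + k - 1 = k by omega, show 1 + k = k + 1 by omega, pow_succ]
        ring
      rw [h1]
      push_cast
      ring

theorem lin_chW (w : Fin (n + 1) → ℕ) (ξ : Fin (n + 1) → PS (Fin n)) :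
    (lin (chW w ξ)).det = MvPowerSeries.constantCoeff (smw w ξ).det := by
  rw [RingHom.map_det]
  congr 1
  ext j i
  rw [lin, Matrix.of_apply, RingHom.mapMatrix_apply, Matrix.map_apply, coeff_single, chW, pp_mul]
  refine Fin.lastCases ?_ (fun i => ?_) i
  · have h1 : pp (Fin.last n) (1 + MvPowerSeries.X (Fin.last n) : PS (Fin (n + 1))) = 1 := by
      rw [pp_apply, map_add, MvPowerSeries.pderiv_X_self]
      have h2 : MvPowerSeries.pderiv ℂ (Fin.last n) (1 : PS (Fin (n + 1))) = 0 :=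
        (MvPowerSeries.pderiv ℂ (Fin.last n)).map_one_eq_zero
      rw [h2, zero_add]
    rw [smw_last, pp_rn_last, mul_zero, zero_add, pp_pow_one _ _ h1, map_mul, map_mul, map_pow,
      map_add, map_one, MvPowerSeries.constantCoeff_X, add_zero, one_pow, mul_one, const_rn,
      map_mul, map_natCast, map_natCast, mul_comm]
  · have h1 : pp i.castSucc (1 + MvPowerSeries.X (Fin.last n) : PS (Fin (n + 1))) = 0 := by
      rw [pp_apply, map_add, MvPowerSeries.pderiv_X_of_ne (Fin.castSucc_ne_last i).symm]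
      have h2 : MvPowerSeries.pderiv ℂ i.castSucc (1 : PS (Fin (n + 1))) = 0 :=
        (MvPowerSeries.pderiv ℂ i.castSucc).map_one_eq_zero
      rw [h2, zero_add]
    rw [smw_succ, pp_rn, pp_pow_zero _ _ h1, mul_zero, add_zero, map_mul, map_pow,
      map_add, map_one, MvPowerSeries.constantCoeff_X, add_zero, one_pow, one_mul, const_rn]

/-- **The local step.** -/
theorem local_w (w : Fin (n + 1) → ℕ) (φ : MvPolynomial (Fin (n + 1)) ℂ) (d : ℕ)
    (hφ : IsWeightedHomogeneous w φ d) (ξ : Fin (n + 1) → PS (Fin n)) (p : Fin (n + 1) → ℂ)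
    (hp : ∀ j, MvPowerSeries.constantCoeff (ξ j) = p j)
    (hD : MvPowerSeries.constantCoeff (smw w ξ).det ≠ 0)
    (a : Fin n → ℕ) (ha : ∀ i, 0 < a i) (e : ℕ) (he : 0 < e) (h : MvPolynomial (Fin n) ℂ)
    (hh : IsWeightedHomogeneous a h e)
    (hcrit : ∀ y : Fin n → ℂ, (∀ i, eval y (pderiv i h) = 0) → y = 0)
    (hξ : (aeval ξ φ : PS (Fin n)) = (h : PS (Fin n))) (k : ℕ) (hk : 1 ≤ k) (c : ℂ)
    (Θ : Fin (n + 1) → MvPolynomial (Fin (n + 1)) ℂ)
    (hΘ : ∀ i, IsWeightedHomogeneous w (Θ i) (d * k + w i))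
    (h1 : ∑ i, Θ i * pderiv i φ = 0) (h2 : ∑ i, pderiv i (Θ i) = C c * φ ^ k)
    (hNR : ∀ r : ℕ, d * (∑ i, a i + r) = e * (∑ i, w i + d * k) →
      ∀ g : MvPolynomial (Fin n) ℂ, IsWeightedHomogeneous a g r → g ∈ JJ h) :
    ∃ b, eval p b ≠ 0 ∧ b • Θ ∈ KV fun i => pderiv i φ := by
  classical
  have hD0 : (smw w ξ).det ≠ 0 := by
    intro h3
    rw [h3, map_zero] at hD
    exact hD rfl
  obtain ⟨E, hE⟩ : ∃ E, (smw w ξ).det * E = 1 := by
    have h3 : IsUnit (smw w ξ).det :=
      MvPowerSeries.isUnit_iff_constantCoeff.2 (isUnit_iff_ne_zero.2 hD)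
    exact h3.exists_right_inv
  refine chart_KV (chW w ξ) p (fun j => by rw [const_chW, hp]) (by
    rw [lin_chW]
    exact isUnit_iff_ne_zero.2 hD) _ Θ fun K => ?_
  set θ : Fin (n + 1) → PS (Fin n) := fun j => aeval ξ (Θ j) with hθ
  set g' : Fin (n + 1) → PS (Fin n) := fun j => aeval ξ (pderiv j φ) with hg'
  obtain ⟨v0, ⟨B, hB, hB0, hv0⟩, hQ⟩ := asm_KV a ha e he h hh hcrit d (∑ i, w i + d * k) k hk
    (Qw w ξ θ) ((smw w ξ).det * MvPowerSeries.C c) (by
      have h3 := Qw_apply w ξ φ d hφ Θ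
      rw [h1, map_zero, mul_zero, hξ] at h3
      exact h3) (by
      have h3 := Qw_div w ξ hD0 (d * k) Θ hΘ
      rw [h2, map_mul, map_pow, hξ] at h3
      have h4 : (aeval ξ (C c : MvPolynomial (Fin (n + 1)) ℂ) : PS (Fin n)) =
          MvPowerSeries.C c := by
        rw [aeval_C]
        rfl
      rw [h4] at h3
      rw [h3]
      ring) hNR K
  -- the sequence on the slice
  have hgg : ∀ l, (gg h d l : PS (Fin n)) = ∑ j, g' j * smw w ξ j l := by
    intro l
    refine Fin.lastCases ?_ (fun l => ?_) l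
    · rw [gg_last, MvPolynomial.coe_mul, MvPolynomial.coe_C]
      have h5 : (MvPowerSeries.C (d : ℂ) : PS (Fin n)) = (d : PS (Fin n)) := map_natCast _ d
      rw [h5, ← hξ, ← aeval_euler w ξ φ d hφ]
    · rw [gg_succ, ← pp_coe, ← hξ, pp_aeval']
      exact Finset.sum_congr rfl fun j _ => by rw [smw_succ]
  have hv0' : ∀ i, (v0 i : PS (Fin n)) = ∑ l, (B i l : PS (Fin n)) * ∑ j, g' j * smw w ξ j l := by
    intro i
    rw [hv0 i, ← MvPolynomial.coeToMvPowerSeries.ringHom_apply, map_sum]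
    refine Finset.sum_congr rfl fun l _ => ?_
    rw [map_mul, MvPolynomial.coeToMvPowerSeries.ringHom_apply,
      MvPolynomial.coeToMvPowerSeries.ringHom_apply, hgg l]
  set W : Fin (n + 1) → Fin (n + 1) → PS (Fin n) := fun j j' =>
    E * ∑ i, ∑ l, smw w ξ j i * (B i l : PS (Fin n)) * smw w ξ j' l with hW
  have hθQ : ∀ j, θ j = E * ∑ i, smw w ξ j i * Qw w ξ θ i := by
    intro j
    have h3 : ∑ i, smw w ξ j i * Qw w ξ θ i = (smw w ξ).det * θ j := by
      have h4 : ∀ i, smw w ξ j i * Qw w ξ θ i =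
          ∑ l, θ l * ((smw w ξ).adjugate i l * smw w ξ j i) := by
        intro i
        rw [Qw, Finset.mul_sum]
        exact Finset.sum_congr rfl fun l _ => by ring
      rw [Finset.sum_congr rfl fun i _ => h4 i, Finset.sum_comm]
      have h5 : ∀ l, ∑ i, θ l * ((smw w ξ).adjugate i l * smw w ξ j i) =
          if j = l then (smw w ξ).det * θ l else 0 := by
        intro l
        rw [← Finset.mul_sum, smw_adj]
        split_ifs
        · ring
        · rw [mul_zero]
      rw [Finset.sum_congr rfl fun l _ => h5 l, Finset.sum_ite_eq, if_pos (Finset.mem_univ j)]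
    rw [h3, ← mul_assoc, mul_comm E, hE, one_mul]
  have hWanti : ∀ j j', W j j' = - W j' j := by
    intro j j'
    rw [hW]
    beta_reduce
    rw [← mul_neg, ← Finset.sum_neg_distrib, Finset.sum_comm]
    congr 1
    refine Finset.sum_congr rfl fun l _ => ?_
    rw [← Finset.sum_neg_distrib]
    refine Finset.sum_congr rfl fun i _ => ?_
    have h3 : (B i l : PS (Fin n)) = -(B l i : PS (Fin n)) := by
      rw [hB i l, ← MvPolynomial.coeToMvPowerSeries.ringHom_apply, map_neg,
        MvPolynomial.coeToMvPowerSeries.ringHom_apply]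
    rw [h3]
    ring
  have hw1 : ∀ j, θ j - ∑ j', W j j' * g' j' ∈ OKI (Fin n) K := by
    intro j
    have h3 : ∑ j', W j j' * g' j' = E * ∑ i, smw w ξ j i * (v0 i : PS (Fin n)) := by
      have h4 : ∀ i, smw w ξ j i * (v0 i : PS (Fin n)) =
          ∑ j', ∑ l, (smw w ξ j i * (B i l : PS (Fin n)) * smw w ξ j' l) * g' j' := by
        intro i
        rw [hv0' i, Finset.mul_sum, Finset.sum_comm]
        refine Finset.sum_congr rfl fun l _ => ?_
        rw [Finset.mul_sum, Finset.mul_sum]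
        exact Finset.sum_congr rfl fun j' _ => by ring
      rw [Finset.sum_congr rfl fun i _ => h4 i, Finset.sum_comm, Finset.mul_sum]
      refine Finset.sum_congr rfl fun j' _ => ?_
      rw [hW]
      beta_reduce
      rw [mul_assoc, Finset.sum_mul]
      congr 1
      refine Finset.sum_congr rfl fun i _ => ?_
      rw [Finset.sum_mul]
    rw [h3, hθQ j, ← mul_sub, ← Finset.sum_sub_distrib]
    refine Ideal.mul_mem_left _ _ (Ideal.sum_mem _ fun i _ => ?_)
    rw [← mul_sub]
    refine Ideal.mul_mem_left _ _ fun m hm => ?_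
    rw [map_sub, MvPolynomial.coeff_coe, hQ i m hm, sub_self]
  set U : PS (Fin (n + 1)) := 1 + MvPowerSeries.X (Fin.last n) with hU
  have hdk : d * 1 ≤ d * k := Nat.mul_le_mul_left d hk
  have hpd : ∀ j j', U ^ (d * k + w j + w j' - d) *
      (aeval (chW w ξ) (pderiv j' φ) : PS (Fin (n + 1))) = U ^ (d * k + w j) * rn (g' j') := by
    intro j j'
    rcases hom_pderiv_w w φ d hφ j' with h3 | ⟨b, hb, h3⟩
    · rw [hg']
      beta_reduce
      rw [h3, map_zero, map_zero, map_zero, mul_zero, mul_zero]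
    · have h4 : (aeval (chW w ξ) (pderiv j' φ) : PS (Fin (n + 1))) = U ^ b * rn (g' j') :=
        aeval_pow_rn U w ξ _ b h3
      rw [h4, ← mul_assoc, ← pow_add]
      congr 2
      omega
  have hΘU : ∀ j, (aeval (chW w ξ) (Θ j) : PS (Fin (n + 1))) = U ^ (d * k + w j) * rn (θ j) :=
    fun j => aeval_pow_rn U w ξ _ _ (hΘ j)
  refine ⟨fun j => ∑ j', (U ^ (d * k + w j + w j' - d) * rn (W j j')) *
    aeval (chW w ξ) (pderiv j' φ),
    ⟨fun j j' => U ^ (d * k + w j + w j' - d) * rn (W j j'), fun j j' => ?_, fun j => ?_,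
      fun j => rfl⟩, fun j => ?_⟩
  · beta_reduce
    rw [hWanti j j', map_neg, mul_neg, show d * k + w j + w j' - d = d * k + w j' + w j - d by
      omega]
  · beta_reduce
    rw [anti_zero W hWanti j, map_zero, mul_zero]
  · beta_reduce
    have h3 : (aeval (chW w ξ) (Θ j) : PS (Fin (n + 1))) -
        ∑ j', (U ^ (d * k + w j + w j' - d) * rn (W j j')) * aeval (chW w ξ) (pderiv j' φ) =
          U ^ (d * k + w j) * rn (θ j - ∑ j', W j j' * g' j') := by
      rw [hΘU j, map_sub, map_sum, mul_sub, Finset.mul_sum]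
      congr 1
      refine Finset.sum_congr rfl fun j' _ => ?_
      have h4 : rn (W j j' * g' j') = rn (W j j') * rn (g' j') := map_mul rn _ _
      have h5 := hpd j j'
      rw [h4]
      linear_combination rn (W j j') * h5
    rw [h3]
    exact Ideal.mul_mem_left _ _ (OKI_rn (hw1 j))

end Pool.Agent.Helper48.WC
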