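import Pool.Agent.Helper48.TC.Kos
import Pool.Agent.Helper48.IF.Defs
import Pool.Agent.Helper48.SW.ChartForm

set_option autoImplicit false
set_option linter.unusedSectionVars false

/-! # The reduction of the pole along a weighted cone -/

namespace Pool.Agent.Helper48.WC

open Finset MvPolynomial Pool.Agent.Helper48.SN Pool.Agent.Helper48.SW Pool.Agent.Helper48.TC

variable {N : ℕ}

theorem wcz_self (w : Fin N → ℕ) (m : ℕ) (p : MvPolynomial (Fin N) ℂ)
    (hp : IsWeightedHomogeneous w p m) : wcz w (m : ℤ) p = p := by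
  ext α
  rw [coeff_wcz]
  split_ifs with h
  · rfl
  · by_contra h1
    exact h (by exact_mod_cast hp (Ne.symm h1))

/-- **The reduction.** -/
theorem reduce_w (hN : 0 < N) (w : Fin N → ℕ) (hw : ∀ i, 0 < w i)
    (φ : MvPolynomial (Fin N) ℂ) (d : ℕ) (hd : 0 < d)
    (hφ : IsWeightedHomogeneous w φ d)
    (hKV : ∀ (k : ℕ) (c : ℂ) (Θ : Fin N → MvPolynomial (Fin N) ℂ), 1 ≤ k →
      (∀ i, IsWeightedHomogeneous w (Θ i) (d * k + w i)) → ∑ i, Θ i * pderiv i φ = 0 →
        ∑ i, pderiv i (Θ i) = C c * φ ^ k → Θ ∈ KV fun i => pderiv i φ)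
    (hL : ∀ (Θ : Fin N → MvPolynomial (Fin N) ℂ) (c : ℂ),
      (∀ i, IsWeightedHomogeneous w (Θ i) (w i)) →
      ∑ i, Θ i * pderiv i φ = 0 → ∑ i, pderiv i (Θ i) = C c → c = 0) (k : ℕ) :
    ∀ (c : ℂ) (Θ : Fin N → MvPolynomial (Fin N) ℂ),
      (∀ i, IsWeightedHomogeneous w (Θ i) (d * k + w i)) →
      ∑ i, Θ i * pderiv i φ = 0 → ∑ i, pderiv i (Θ i) = C c * φ ^ k → c = 0 := by
  induction k with
  | zero =>
    intro c Θ h0 h1 h2
    rw [pow_zero, mul_one] at h2
    exact hL Θ c (fun i => by simpa using h0 i) h1 h2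
  | succ k ih =>
    intro c Θ h0 h1 h2
    by_contra hc
    have hdC : (d : ℂ) ≠ 0 := by exact_mod_cast hd.ne'
    obtain ⟨B, hB, hB0, hΘ⟩ := hKV (k + 1) c Θ (by omega) h0 h1 h2
    set γ : Fin N → MvPolynomial (Fin N) ℂ := fun j => ∑ i, pderiv i (B i j) with hγ
    have hγφ : ∑ j, γ j * pderiv j φ = C c * φ ^ (k + 1) := by
      rw [← h2]
      have h3 : ∑ i, pderiv i (Θ i) = ∑ i, ∑ j, pderiv i (B i j) * pderiv j φ +
          ∑ i, ∑ j, B i j * pderiv i (pderiv j φ) := by
        rw [← Finset.sum_add_distrib]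
        refine Finset.sum_congr rfl fun i _ => ?_
        rw [hΘ i, map_sum, ← Finset.sum_add_distrib]
        refine Finset.sum_congr rfl fun j _ => ?_
        rw [pderiv_mul]
      have h4 : ∑ i, ∑ j, B i j * pderiv i (pderiv j φ) = 0 := by
        refine anti_sum (fun i j => B i j * pderiv i (pderiv j φ)) (fun i => ?_) fun i j => ?_
        · rw [hB0, zero_mul]
        · rw [hB i j, pderiv_comm i j]
          ring
      rw [h3, h4, add_zero, Finset.sum_comm]
      refine Finset.sum_congr rfl fun j _ => ?_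
      rw [hγ, Finset.sum_mul]
    have hγd : ∑ j, pderiv j (γ j) = 0 := by
      have h3 : ∑ j, pderiv j (γ j) = ∑ j, ∑ i, pderiv j (pderiv i (B i j)) :=
        Finset.sum_congr rfl fun j _ => by rw [hγ, map_sum]
      rw [h3]
      refine anti_sum (fun j i => pderiv j (pderiv i (B i j))) (fun i => ?_) fun i j => ?_
      · rw [hB0, map_zero, map_zero]
      · rw [hB j i, map_neg, map_neg, pderiv_comm i j]
    set Θ1 : Fin N → MvPolynomial (Fin N) ℂ := fun j =>
      C (c / d) * φ ^ k * EE w j - γ j with hΘ1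
    have h3 : ∑ j, Θ1 j * pderiv j φ = 0 := by
      have h4 : ∀ j, Θ1 j * pderiv j φ = C (c / d) * φ ^ k * (EE w j * pderiv j φ) -
          γ j * pderiv j φ := fun j => by
        rw [hΘ1]
        ring
      rw [Finset.sum_congr rfl fun j _ => h4 j, Finset.sum_sub_distrib, ← Finset.mul_sum,
        euler_w w φ d hφ, hγφ]
      have h5 : C (c / d) * C (d : ℂ) = (C c : MvPolynomial (Fin N) ℂ) := by
        rw [← C_mul, div_mul_cancel₀ _ hdC]
      rw [pow_succ]
      linear_combination φ ^ k * φ * h5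
    have h4 : ∑ j, pderiv j (Θ1 j) = C (c / d * ((∑ j, w j : ℕ) + k * d)) * φ ^ k := by
      have h5 : ∀ j, pderiv j (Θ1 j) = C (c / d) * (C (w j : ℂ) * φ ^ k) +
          C (c / d) * (C (k : ℂ) * φ ^ (k - 1) * (EE w j * pderiv j φ)) - pderiv j (γ j) := by
        intro j
        rw [hΘ1]
        change pderiv j (C (c / d) * φ ^ k * EE w j - γ j) = _
        have h6 : pderiv j (EE w j) = C (w j : ℂ) := by
          rw [EE, pderiv_C_mul, pderiv_X_self, mul_one]
        rw [map_sub, mul_assoc, pderiv_C_mul, pderiv_mul, h6, pderiv_pow]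
        simp only [map_natCast]
        ring
      rw [Finset.sum_congr rfl fun j _ => h5 j, Finset.sum_sub_distrib, hγd, sub_zero,
        Finset.sum_add_distrib, ← Finset.mul_sum, ← Finset.sum_mul,
        ← Finset.mul_sum, ← Finset.mul_sum, euler_w w φ d hφ]
      have h6 : C (k : ℂ) * φ ^ (k - 1) * (C (d : ℂ) * φ) = C ((k * d : ℕ) : ℂ) * φ ^ k := by
        cases k with
        | zero => simp
        | succ k =>
          rw [Nat.add_sub_cancel, Nat.cast_mul, C_mul, pow_succ]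
          ring
      rw [h6]
      push_cast
      simp only [C_mul, C_add, map_natCast, map_sum]
      ring
    set Θ2 : Fin N → MvPolynomial (Fin N) ℂ := fun j => wcz w ((d * k + w j : ℕ) : ℤ) (Θ1 j)
      with hΘ2
    have h7 := ih (c / d * ((∑ j, w j : ℕ) + k * d)) Θ2 (fun i => wcz_hom w _ _)
      (by
        have h8 := congrArg (wcz w ((d * k + d : ℕ) : ℤ)) h3
        rw [map_sum, map_zero] at h8
        rw [← h8]
        refine Finset.sum_congr rfl fun j _ => ?_
        rcases hom_pderiv_w w φ d hφ j with h9 | ⟨b, hb, h9⟩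
        · rw [h9, mul_zero, mul_zero, map_zero]
        · rw [mul_comm (Θ1 j), show ((d * k + d : ℕ) : ℤ) = ((d * k + w j : ℕ) : ℤ) + b by
            rw [← hb]; push_cast; ring, wcz_mul w _ b _ _ h9, mul_comm])
      (by
        have h8 := congrArg (wcz w ((d * k : ℕ) : ℤ)) h4
        rw [map_sum, wcz_self w (d * k) _ (by
          have h9 := (hφ.pow k).C_mul (c / d * ((∑ j, w j : ℕ) + k * d))
          rwa [smul_eq_mul, Nat.mul_comm k d] at h9)] at h8
        rw [← h8]
        refine Finset.sum_congr rfl fun j _ => ?_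
        rw [wcz_pderiv]
        rw [hΘ2]
        congr 2)
    have h8 : ((∑ j, w j : ℕ) : ℂ) + k * d ≠ 0 := by
      have h9 : 0 < ∑ j, w j := Finset.sum_pos (fun j _ => hw j) ⟨⟨0, hN⟩, Finset.mem_univ _⟩
      have : 0 < ∑ j, w j + k * d := by positivity
      exact_mod_cast this.ne'
    exact mul_ne_zero (div_ne_zero hc hdC) h8 h7

theorem nonexact_w (hN : 0 < N) (w : Fin N → ℕ) (hw : ∀ i, 0 < w i)
    (φ : MvPolynomial (Fin N) ℂ) (d : ℕ) (hd : 0 < d)
    (hφ : IsWeightedHomogeneous w φ d)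
    (hKV : ∀ (k : ℕ) (c : ℂ) (Θ : Fin N → MvPolynomial (Fin N) ℂ), 1 ≤ k →
      (∀ i, IsWeightedHomogeneous w (Θ i) (d * k + w i)) → ∑ i, Θ i * pderiv i φ = 0 →
        ∑ i, pderiv i (Θ i) = C c * φ ^ k → Θ ∈ KV fun i => pderiv i φ)
    (hL : ∀ (Θ : Fin N → MvPolynomial (Fin N) ℂ) (c : ℂ),
      (∀ i, IsWeightedHomogeneous w (Θ i) (w i)) →
      ∑ i, Θ i * pderiv i φ = 0 → ∑ i, pderiv i (Θ i) = C c → c = 0) :
    Pool.Agent.Helper48.IF.NonexactForm w d φ := by
  refine ⟨hw, hd, ?_⟩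
  rintro ⟨k, Θ, h0, h1, h2⟩
  exact one_ne_zero (reduce_w hN w hw φ d hd hφ hKV hL k 1 Θ h0 h1 (by rw [h2, C_1, one_mul]))

end Pool.Agent.Helper48.WC
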