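import Pool.Agent.Helper48.WC.Defs
import Pool.Agent.Helper48.WC.Loc
import Pool.Agent.Helper48.WC.Glob
import Pool.Agent.Helper48.WC.Red

set_option autoImplicit false
set_option linter.unusedSectionVars false

/-! # Weighted cones with quasi-homogeneous singular points -/

namespace Pool.Agent.Helper48.WC

open Finset MvPolynomial Pool.Agent.H628R4.TP Pool.Agent.K3h38.SM Pool.Agent.Helper48.SN
  Pool.Agent.Helper48.SW Pool.Agent.Helper48.TC

variable {n : ℕ}

theorem det_smw (w : Fin (n + 1) → ℕ) (ξ : Fin (n + 1) → PS (Fin n)) (q : Fin (n + 1) → ℂ)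
    (hq : ∀ j, MvPowerSeries.constantCoeff (ξ j) = q j) :
    MvPowerSeries.constantCoeff (smw w ξ).det = (Matrix.of fun j i =>
      (Fin.lastCases ((w j : ℂ) * q j)
        (fun i => MvPowerSeries.coeff (Finsupp.single i 1) (ξ j)) i : ℂ)).det := by
  rw [RingHom.map_det]
  congr 1
  ext j i
  rw [RingHom.mapMatrix_apply, Matrix.map_apply, Matrix.of_apply]
  refine Fin.lastCases ?_ (fun i => ?_) i
  · rw [smw_last, Fin.lastCases_last, map_mul, map_natCast, hq]
  · rw [smw_succ, Fin.lastCases_castSucc, ← MvPowerSeries.coeff_zero_eq_constantCoeff_apply,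
      pp_apply, MvPowerSeries.coeff_pderiv, zero_add, Finsupp.coe_zero, Pi.zero_apply,
      Nat.cast_zero, zero_add, mul_one]

/-- **Weighted cones with quasi-homogeneous singular points.** -/
theorem nonexact_cone (w : Fin (n + 1) → ℕ) (φ : MvPolynomial (Fin (n + 1)) ℂ) (d : ℕ)
    (h : QHCone w φ d) : Pool.Agent.Helper48.IF.NonexactForm w d φ := by
  classical
  obtain ⟨hw, hd, hφ, ⟨S, hS⟩, hQ, hL⟩ := h
  refine nonexact_w (Nat.succ_pos n) w hw φ d hd hφ (fun k c Θ hk hΘ h1 h2 => ?_)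
    (fun Θ c hΘ h1 h2 => ?_)
  · refine KV_global_w w hw (fun i => pderiv i φ) (J := {p : S // (p : Fin (n + 1) → ℂ) ≠ 0})
      (fun p => (p.1 : Fin (n + 1) → ℂ)) (fun p => p.2) (fun q hq0 hq => ?_) Θ h1
      (fun q hq0 hq => ?_)
    · obtain ⟨p, hp, t, ht⟩ := hS q ⟨hq0, hq⟩
      refine ⟨⟨⟨p, hp⟩, fun h3 => ?_⟩, t, ht⟩
      apply hq0
      funext i
      have h4 : p = 0 := h3
      rw [ht i, h4, Pi.zero_apply, mul_zero]
    · obtain ⟨a, e, g, ⟨⟨ha, he, hg, hcrit⟩, ξ, ⟨hξq, hdet⟩, hξ⟩, hNR⟩ := hQ q ⟨hq0, hq⟩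
      refine local_w w φ d hφ ξ q hξq (by rw [det_smw w ξ q hξq]; exact hdet) a ha e he g hg hcrit
        hξ k hk c Θ hΘ h1 h2 (fun r hr g' hg' => ?_)
      refine hNR k r hk ?_ g' hg'
      have h3 : (r + ∑ i, a i) * d = d * (∑ i, a i + r) := by ring
      rw [h3, hr]
      ring
  · have h3 := hL Θ hΘ h1
    rw [h3] at h2
    exact (C_eq_zero.1 h2.symm)

end Pool.Agent.Helper48.WC
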