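import Pool.Agent.Helper48.WC.Jac
import Pool.Agent.Helper48.WC.Cone
import Pool.Agent.Helper48.LY.Main

set_option autoImplicit false
set_option linter.unusedSectionVars false

/-! # The certificate over a point of the exceptional divisor of a weighted blow-up -/

namespace Pool.Agent.Helper48.WC

open Finset MvPolynomial Pool.Agent.H628R4.TP Pool.Agent.K3h38.SM Pool.Agent.Helper48.SN
  Pool.Agent.Helper48.SW Pool.Agent.Helper48.TC
open Pool.Agent.Helper48.LY (FromChart GlobalDatum LocalDatum StrongConjecture centred QHPoly)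

variable {n : ℕ}

/-- **The certificate.** -/
theorem fromChart_Y (hn : 1 ≤ n) (w : Fin (n + 1) → ℕ) (hw : ∀ i, 0 < w i)
    (f : MvPolynomial (Fin (n + 1)) ℂ) (p : Fin (n + 1) → ℂ) (d : ℕ) (hd : 0 < d)
    (q : Fin (n + 1) → ℂ) (k : ℕ) (a : Fin n → ℕ) (e : ℕ) (h : MvPolynomial (Fin n) ℂ)
    (hQ : YPoint w (centred p f) d q k a e h) (hlam' : NoResidue w d k a e) :
    FromChart f p ((d + k) * e) (k * ∑ i, a i + (∑ i, w i) * e) := by
  classical
  obtain ⟨⟨ha, he, hh, hcrit⟩, hgrad0, hk, ξ, c, hc, hξq, hdet, hinit⟩ := hQ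
  set W : ℕ := ∑ i, w i with hW
  have hW0 : 0 < W := Finset.sum_pos (fun i _ => hw i) Finset.univ_nonempty
  have hlam : ∀ l : ℕ, d * (k * ∑ i, a i + W * e) + l * ((d + k) * e) ≠
      (W - 1) * ((d + k) * e) := by
    intro l hl
    refine hlam' (l + 1) (by omega) ?_
    rw [← hW, add_mul l, ← add_assoc, hl]
    obtain ⟨W', hW'⟩ := Nat.exists_eq_add_of_le' hW0
    rw [hW', Nat.add_sub_cancel]
    ring
  set D : ℂ := MvPowerSeries.constantCoeff (smz w ξ).det with hDd
  have hD : D ≠ 0 := by rw [hDd, det_smz w ξ q hξq]; exact hdet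
  have hh0 : eval 0 h = 0 := by
    rw [eval_zero, constantCoeff_eq]
    by_contra h1
    have h2 := hh h1
    rw [map_zero] at h2
    omega
  have hsv : ∑ i, vZ a k e i = k * ∑ i, a i + e := by
    rw [Fin.sum_univ_castSucc, vZ, Fin.lastCases_last, Finset.mul_sum]
    congr 1
    exact Finset.sum_congr rfl fun i _ => by rw [vZ, Fin.lastCases_castSucc]
  have hvpos : ∀ i, 0 < vZ a k e i := by
    intro i
    refine Fin.lastCases ?_ (fun i => ?_) i
    · rw [vZ, Fin.lastCases_last]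
      exact he
    · rw [vZ, Fin.lastCases_castSucc]
      exact Nat.mul_pos hk (ha i)
  have h1 : ∑ i, ![W - 1, 0] i * ![e, k * e] i = (W - 1) * e := by
    rw [Fin.sum_univ_two]
    change (W - 1) * e + 0 * (k * e) = _
    ring
  have h3 : ∑ i, ![d, 1] i * ![e, k * e] i = (d + k) * e := by
    rw [Fin.sum_univ_two]
    change d * e + 1 * (k * e) = _
    ring
  set ζ : Fin (n + 1) → PS (Fin (n + 1)) := fun j => zz ^ w j * ξ j with hζd
  have hζ : ∀ g : MvPolynomial (Fin (n + 1)) ℂ,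
      (aeval (fun j => ζ j + MvPowerSeries.C (p j)) g : PS (Fin (n + 1))) =
        aeval ζ (centred p g) := by
    intro g
    have h4 : (aeval (fun j => ζ j + MvPowerSeries.C (p j)) :
        MvPolynomial (Fin (n + 1)) ℂ →ₐ[ℂ] PS (Fin (n + 1))) =
          (aeval ζ).comp (aeval fun i => X i + C (p i)) := by
      refine MvPolynomial.algHom_ext fun i => ?_
      rw [AlgHom.comp_apply, aeval_X, aeval_X, map_add, aeval_X, aeval_C]
      rfl
    exact congrArg (fun F : MvPolynomial (Fin (n + 1)) ℂ →ₐ[ℂ] PS (Fin (n + 1)) => F g) h4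
  have hjac : (Matrix.of fun j i => MvPowerSeries.pderiv ℂ i (ζ j + MvPowerSeries.C (p j)) :
      Matrix (Fin (n + 1)) (Fin (n + 1)) (PS (Fin (n + 1)))) = jacS ζ := by
    ext1 j i
    rw [Matrix.of_apply, map_add]
    have h4 : MvPowerSeries.pderiv ℂ i (MvPowerSeries.C (p j) : PS (Fin (n + 1))) = 0 :=
      (MvPowerSeries.pderiv ℂ i).map_algebraMap (p j)
    rw [h4, add_zero]
    rfl
  refine ⟨by omega, fun j => ζ j + MvPowerSeries.C (p j), vZ a k e, D, Fin 2, inferInstance,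
    FZ h c k, ![e, k * e], ![d, 1], ![W - 1, 0], fun j => ?_, hvpos, fun i => ?_, fun i => ?_,
    fun i => ?_, snc_FZ h c hc k hcrit hh0, dep_FZ h c k hgrad0, hD, ?_, ?_, ?_, ?_,
    fun i l => ?_⟩
  · rw [map_add, hζd]
    beta_reduce
    rw [map_mul, map_pow, zz, MvPowerSeries.constantCoeff_X,
      zero_pow (hw j).ne', zero_mul, zero_add, MvPowerSeries.constantCoeff_C]
  · have h4 : IsWeightedHomogeneous (vZ a k e) (X (Fin.last n) : MvPolynomial (Fin (n + 1)) ℂ)
        e := by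
      have h5 := isWeightedHomogeneous_X ℂ (vZ a k e) (Fin.last n)
      rwa [vZ, Fin.lastCases_last] at h5
    fin_cases i
    · exact h4
    · refine IsWeightedHomogeneous.add (hom_rename_Z a k e e h hh) ?_
      have h5 := (h4.pow k).C_mul c
      rwa [smul_eq_mul] at h5
  · fin_cases i
    · exact he
    · exact Nat.mul_pos hk he
  · fin_cases i
    · exact hd
    · exact le_rfl
  · rw [hζ, h3, Fin.prod_univ_two]
    have h4 : FZ h c k 0 ^ ![d, 1] 0 * FZ h c k 1 ^ ![d, 1] 1 =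
        X (Fin.last n) ^ d * (rename Fin.castSucc h + C c * X (Fin.last n) ^ k) := by
      change FZ h c k 0 ^ d * FZ h c k 1 ^ 1 = _
      rw [FZ, FZ, if_pos rfl, if_neg (by decide), pow_one]
    rw [h4]
    exact hinit
  · rw [hjac, h1, Fin.prod_univ_two]
    have h4 : C D * (FZ h c k 0 ^ ![W - 1, 0] 0 * FZ h c k 1 ^ ![W - 1, 0] 1) =
        C D * X (Fin.last n) ^ (W - 1) := by
      change C D * (FZ h c k 0 ^ (W - 1) * FZ h c k 1 ^ 0) = _
      rw [FZ, if_pos rfl, pow_zero, mul_one]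
    rw [h4, hζd, jac_zz w hw ξ]
    have h5 := init_zz (vZ a k e) hvpos (W - 1) (smz w ξ).det D rfl
    rwa [vZ, Fin.lastCases_last] at h5
  · rw [h3]
  · rw [hsv, h1]
    obtain ⟨W', hW'⟩ := Nat.exists_eq_add_of_le' hW0
    rw [hW', Nat.add_sub_cancel]
    ring
  · fin_cases i
    · exact hlam l
    · change 1 * (k * ∑ i, a i + W * e) + l * ((d + k) * e) ≠ 0 * ((d + k) * e)
      rw [zero_mul]
      have : 0 < W * e := Nat.mul_pos hW0 he
      omega

theorem init_of_order (w : Fin (n + 1) → ℕ) (f : MvPolynomial (Fin (n + 1)) ℂ) (d : ℕ)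
    (h0 : OrderGE w f d) : HasInit w f d (weightedHomogeneousComponent w d f) := by
  classical
  refine ⟨weightedHomogeneousComponent_isWeightedHomogeneous d f, fun α hα => ?_⟩
  rw [coeff_weightedHomogeneousComponent]
  split_ifs with h2
  · rfl
  · have h3 := congrArg (coeff α) (h0 (Finsupp.weight w α) (by omega))
    rwa [coeff_weightedHomogeneousComponent, if_pos rfl, coeff_zero] at h3

theorem no_square_fin (hn : 2 ≤ n) (w : Fin (n + 1) → ℕ) (hw : ∀ i, 0 < w i)
    (φ : MvPolynomial (Fin (n + 1)) ℂ) (hS : FinSing w φ)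
    (P G : MvPolynomial (Fin (n + 1)) ℂ) (e : ℕ) (he : 0 < e) (hP : IsWeightedHomogeneous w P e)
    (hφ : φ = P * P * G) : False := by
  obtain ⟨S, hS⟩ := hS
  exact no_square_w hn w hw φ S (fun q hq0 hq => hS q ⟨hq0, hq⟩) P G e he hP hφ

theorem cone_ne (hn : 2 ≤ n) (w : Fin (n + 1) → ℕ) (hw : ∀ i, 0 < w i)
    (φ : MvPolynomial (Fin (n + 1)) ℂ) (hS : FinSing w φ) : φ ≠ 0 := by
  intro h1
  exact no_square_fin hn w hw _ hS (X 0) 0 (w 0) (hw 0) (isWeightedHomogeneous_X ℂ w 0)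
    (by rw [h1, mul_zero])

/-- a simple prime factor at the origin -/
theorem simple_prime (hn : 2 ≤ n) (w : Fin (n + 1) → ℕ) (hw : ∀ i, 0 < w i)
    (f : MvPolynomial (Fin (n + 1)) ℂ) (d : ℕ) (hd : 0 < d) (h0 : OrderGE w f d)
    (hS : FinSing w (weightedHomogeneousComponent w d f)) :
    ∃ p q, Prime p ∧ eval 0 p = 0 ∧ f = p ^ 1 * q ∧ ¬ p ∣ q := by
  classical
  have hfd : weightedHomogeneousComponent w d f ≠ 0 := cone_ne hn w hw _ hS
  have hf : f ≠ 0 := by
    rintro rfl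
    exact hfd (map_zero _)
  have hf0 : eval 0 f = 0 := by
    rw [eval_zero, constantCoeff_eq]
    have h3 := congrArg (coeff 0) (h0 0 hd)
    rwa [coeff_weightedHomogeneousComponent, if_pos (by rw [map_zero]), coeff_zero] at h3
  obtain ⟨p, hp, hp0, g, hg⟩ := exists_prime_factor f hf hf0
  refine ⟨p, g, hp, hp0, by rw [pow_one]; exact hg, ?_⟩
  rintro ⟨g', rfl⟩
  have hg0 : g' ≠ 0 := by
    rintro rfl
    exact hf (by rw [hg, mul_zero, mul_zero])
  obtain ⟨e, P, hP, hPi⟩ := exists_init w p hp.ne_zero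
  obtain ⟨e', G, hG, hGi⟩ := exists_init w g' hg0
  have h1 := (hPi.mul hPi).mul hGi
  have h2 : p * p * g' = f := by rw [hg, mul_assoc]
  rw [h2] at h1
  have h3 := (h1.unique (init_of_order w f d h0)
    (mul_ne_zero (mul_ne_zero hP hP) hG) hfd).2
  exact no_square_fin hn w hw _ hS P G e (hPi.pos hP hw hp0) hPi.1 h3.symm

end Pool.Agent.Helper48.WC
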