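import Pool.Agent.Helper48.LY.Defs

set_option autoImplicit false

/-! # Weighted Lê–Yomdin singularities

The definitions used in `Pool.Agent.Results.MP_a2a574_ag.LeYomdin`, together with those of
`Pool.Agent.Helper48.LY.Defs` (section `Charts`) and `Pool.Agent.Helper48.IF.Defs`. -/

namespace Pool.Agent.Helper48.WC

open MvPolynomial Pool.Agent.H628R4.TP Pool.Agent.Helper48.IF Pool.Agent.Helper16.WM
open Pool.Agent.Helper48.LY (IsInit FromChart GlobalDatum LocalDatum StrongConjecture centred QHPoly)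

variable {n : ℕ}

/-- `q ≠ 0` is a singular point of the cone `φ = 0`: the orbit of `q` is a singular point of the
hypersurface `φ = 0` in the weighted projective space. -/
def SingPt (φ : MvPolynomial (Fin (n + 1)) ℂ) (q : Fin (n + 1) → ℂ) : Prop :=
  q ≠ 0 ∧ ∀ j, eval q (pderiv j φ) = 0

/-- The hypersurface `φ = 0` in the weighted projective space `ℙ(w)` has finitely many singular points:
the singular points of the cone are in finitely many orbits `{(t ^ w_i p_i)}`. -/
def FinSing (w : Fin (n + 1) → ℕ) (φ : MvPolynomial (Fin (n + 1)) ℂ) : Prop :=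
  ∃ S : Finset (Fin (n + 1) → ℂ), ∀ q, SingPt φ q → ∃ p ∈ S, ∃ t : ℂ, ∀ i, q i = t ^ w i * p i

/-- `ξ(y)` is a formal slice at the point `q`: `ξ(0) = q`, and the vectors `∂ξ/∂y_i(0)` together with the
tangent vector `(w_j q_j)` of the orbit of `q` are a basis. (For `w_j = 1`: `y_1, ..., y_n` are formal
coordinates of `ℙ^n` at `[q]`.) -/
def IsSlice (w : Fin (n + 1) → ℕ) (q : Fin (n + 1) → ℂ)
    (ξ : Fin (n + 1) → MvPowerSeries (Fin n) ℂ) : Prop :=
  (∀ j, MvPowerSeries.constantCoeff (ξ j) = q j) ∧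
    (Matrix.of fun j i => (Fin.lastCases ((w j : ℂ) * q j)
      (fun i => MvPowerSeries.coeff (Finsupp.single i 1) (ξ j)) i : ℂ)).det ≠ 0

/-- The singularity of the hypersurface `φ = 0` at the point `q` is quasi-homogeneous with the weights
`a` and the degree `e`: on some formal slice its equation is `h(y) = 0`. -/
def QHSlice (w : Fin (n + 1) → ℕ) (φ : MvPolynomial (Fin (n + 1)) ℂ) (q : Fin (n + 1) → ℂ)
    (a : Fin n → ℕ) (e : ℕ) (h : MvPolynomial (Fin n) ℂ) : Prop :=
  QHPoly a e h ∧ ∃ ξ, IsSlice w q ξ ∧ (aeval ξ φ : MvPowerSeries (Fin n) ℂ) = h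

/-- The singularity of the hypersurface `φ = 0` at the point `q` is semi-quasi-homogeneous: on some
formal slice its equation is `h(y) + (terms of higher weight) = 0`. -/
def SemiQHSlice (w : Fin (n + 1) → ℕ) (φ : MvPolynomial (Fin (n + 1)) ℂ) (q : Fin (n + 1) → ℂ)
    (a : Fin n → ℕ) (e : ℕ) (h : MvPolynomial (Fin n) ℂ) : Prop :=
  QHPoly a e h ∧ ∃ ξ, IsSlice w q ξ ∧ IsInit a (aeval ξ φ : MvPowerSeries (Fin n) ℂ) e h

/-- For all integers `k ≥ 1`, `-|w|/d - k` is not one of the numbers `-(r + ∑ a_i)/e`, where `r` is the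
weight of a nonzero element of the Milnor algebra `ℂ[y]/(∂h/∂y_1, ..., ∂h/∂y_n)`. (These numbers are the
roots of the reduced Bernstein–Sato polynomial of `h`.) -/
def NoResonance (w : Fin (n + 1) → ℕ) (d : ℕ) (a : Fin n → ℕ) (e : ℕ)
    (h : MvPolynomial (Fin n) ℂ) : Prop :=
  ∀ k r : ℕ, 1 ≤ k → (r + ∑ i, a i) * d = (∑ i, w i + d * k) * e →
    ∀ g : MvPolynomial (Fin n) ℂ, IsWeightedHomogeneous a g r →
      g ∈ Ideal.span (Set.range fun i => pderiv i h)

/-- `φ` is weighted homogeneous of weight `d`; the hypersurface `φ = 0` in the weighted projective space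
has finitely many singular points, all quasi-homogeneous and without resonance, and all vector fields of
weight `0` which annihilate `φ` have the divergence `0`. -/
def QHCone (w : Fin (n + 1) → ℕ) (φ : MvPolynomial (Fin (n + 1)) ℂ) (d : ℕ) : Prop :=
  (∀ i, 0 < w i) ∧ 0 < d ∧ IsWeightedHomogeneous w φ d ∧ FinSing w φ ∧
    (∀ q, SingPt φ q → ∃ a e h, QHSlice w φ q a e h ∧ NoResonance w d a e h) ∧
    ∀ Θ : Fin (n + 1) → MvPolynomial (Fin (n + 1)) ℂ,
      (∀ i, IsWeightedHomogeneous w (Θ i) (w i)) →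
      ∑ i, Θ i * pderiv i φ = 0 → ∑ i, pderiv i (Θ i) = 0

/-- `φ` is weighted homogeneous of weight `d ≥ |w|`; the hypersurface `φ = 0` in the weighted projective
space has finitely many singular points, all quasi-homogeneous and without resonance, and satisfies
`|a|/e ≥ |w|/d` at these points (it is log canonical with the coefficient `|w|/d`). -/
def LCCone (w : Fin (n + 1) → ℕ) (φ : MvPolynomial (Fin (n + 1)) ℂ) (d : ℕ) : Prop :=
  (∀ i, 0 < w i) ∧ ∑ i, w i ≤ d ∧ IsWeightedHomogeneous w φ d ∧ FinSing w φ ∧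
    ∀ q, SingPt φ q → ∃ a e h, QHSlice w φ q a e h ∧ NoResonance w d a e h ∧
      (∑ i, w i) * e ≤ d * ∑ i, a i

/-- The initial form of `f` has the weight `≥ d`. -/
def OrderGE (w : Fin (n + 1) → ℕ) (f : MvPolynomial (Fin (n + 1)) ℂ) (d : ℕ) : Prop :=
  ∀ l, l < d → weightedHomogeneousComponent w l f = 0

/-- `f = f_d + f_(d+k) + ...` with `f_i` weighted homogeneous of weight `i`, where `d, k ≥ 1`. -/
def Gap (w : Fin (n + 1) → ℕ) (f : MvPolynomial (Fin (n + 1)) ℂ) (d k : ℕ) : Prop :=
  0 < d ∧ 0 < k ∧ OrderGE w f d ∧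
    ∀ l, d < l → l < d + k → weightedHomogeneousComponent w l f = 0

/-- In formal coordinates `y_1, ..., y_n, z` of the weighted blow-up `x_j = z ^ w_j ξ_j(y, z)` at the point
`q = ξ(0)` of its exceptional divisor `z = 0` (the vectors `∂ξ/∂y_i(0)`, `(w_j q_j)` are a basis), the
initial form of `f` for the weights `κ a_i` of `y_i` and `e` of `z` is `z ^ d (h(y) + c z ^ κ)`, `c ≠ 0`,
`κ ≥ 1`, where `h` is weighted homogeneous of degree `e` for the weights `a_i`, and its gradient vanishes
exactly at the origin. -/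
def YPoint (w : Fin (n + 1) → ℕ) (f : MvPolynomial (Fin (n + 1)) ℂ) (d : ℕ) (q : Fin (n + 1) → ℂ)
    (κ : ℕ) (a : Fin n → ℕ) (e : ℕ) (h : MvPolynomial (Fin n) ℂ) : Prop :=
  QHPoly a e h ∧ (∀ i, eval 0 (pderiv i h) = 0) ∧ 0 < κ ∧
    ∃ (ξ : Fin (n + 1) → MvPowerSeries (Fin (n + 1)) ℂ) (c : ℂ), c ≠ 0 ∧
      (∀ j, MvPowerSeries.constantCoeff (ξ j) = q j) ∧
      (Matrix.of fun j i => (Fin.lastCases ((w j : ℂ) * q j)
        (fun i => MvPowerSeries.coeff (Finsupp.single (Fin.castSucc i) 1) (ξ j)) i : ℂ)).det ≠ 0 ∧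
      IsInit (fun i => (Fin.lastCases e (fun i => κ * a i) i : ℕ))
        (aeval (fun j => MvPowerSeries.X (Fin.last n) ^ w j * ξ j) f) ((d + κ) * e)
        (X (Fin.last n) ^ d * (rename Fin.castSucc h + C c * X (Fin.last n) ^ κ))

/-- `f` is a weighted Lê–Yomdin singularity: its initial form `f_d` for the weights `w_i > 0` has weight
`d > 0`, and the hypersurface `f_d = 0` in the weighted projective space has finitely many singular
points, which are all as in `YPoint`. (The number `κ` may depend on the point.) -/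
def LeYomdin (w : Fin (n + 1) → ℕ) (f : MvPolynomial (Fin (n + 1)) ℂ) (d : ℕ) : Prop :=
  (∀ i, 0 < w i) ∧ 0 < d ∧ OrderGE w f d ∧ FinSing w (weightedHomogeneousComponent w d f) ∧
    ∀ q, SingPt (weightedHomogeneousComponent w d f) q → ∃ κ a e h, YPoint w f d q κ a e h

/-- The residue number of the first exceptional divisor `(d, |w|)` with respect to the divisor
`((d+κ) e, κ |a| + |w| e)` is not a positive integer; it is `|w| - d (κ |a| + |w| e) / ((d+κ) e)`. -/
def NoResidue (w : Fin (n + 1) → ℕ) (d κ : ℕ) (a : Fin n → ℕ) (e : ℕ) : Prop :=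
  ∀ l : ℕ, 1 ≤ l → (∑ i, w i) * ((d + κ) * e) ≠
    d * (κ * ∑ i, a i + (∑ i, w i) * e) + l * ((d + κ) * e)

/-- The numerical data of the divisors of the embedded resolution of a weighted Lê–Yomdin singularity
(the weighted blow-up of the origin with the weights `w`, and then a weighted blow-up at each singular
point of `f_d = 0`), up to common factors: `(1, 1)` for the strict transform, `(d, |w|)` for the first
exceptional divisor, and `((d+κ) e, κ |a| + |w| e)` for the divisor over a point as in `YPoint`, which has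
to satisfy `NoResidue`. -/
def LYDatum (w : Fin (n + 1) → ℕ) (f : MvPolynomial (Fin (n + 1)) ℂ) (d m ν : ℕ) : Prop :=
  1 ≤ ν ∧ (ν = m ∨ ν * d = m * ∑ i, w i ∨
    ∃ q κ a e h, YPoint w f d q κ a e h ∧ NoResidue w d κ a e ∧
      ν * ((d + κ) * e) = m * (κ * ∑ i, a i + (∑ i, w i) * e))

end Pool.Agent.Helper48.WC
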