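import Pool.Agent.Helper48.WC.Defs
import Pool.Agent.Helper48.SW.KoszulW
import Pool.Agent.Helper48.TC.Rn
import Pool.Graph.R_seed8.TH144.MB.Macaulay

set_option autoImplicit false
set_option linter.unusedSectionVars false

/-! # The numerical criteria for non-resonance -/

namespace Pool.Agent.Helper48.WC

open Finset MvPolynomial Pool.Agent.H628R4.TP Pool.Agent.K3h38.SM Pool.Agent.Helper48.SN
  Pool.Agent.Helper48.SW Pool.Agent.Helper48.TC
open Pool.Agent.Helper48.LY (QHPoly)

variable {n : ℕ}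

theorem prodX_ne : (∏ i, X i : MvPolynomial (Fin n) ℂ) ≠ 0 :=
  Finset.prod_ne_zero_iff.2 fun i _ => X_ne_zero i

theorem prodX_eq : (∏ i, X i : MvPolynomial (Fin n) ℂ) =
    monomial (Finsupp.equivFunOnFinite.symm fun _ => 1) 1 := by
  rw [monomial_eq, Finsupp.prod_fintype _ _ (fun i => by simp), C_1, one_mul]
  exact Finset.prod_congr rfl fun i _ => by
    rw [Finsupp.equivFunOnFinite_symm_apply_apply, pow_one]

theorem rt_prodX (a : Fin n → ℕ) (ha : ∀ i, 0 < a i) (c : MvPolynomial (Fin n) ℂ) :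
    ∃ r, rt a ((∏ i, X i) * c) = (∏ i, X i) * r := by
  classical
  induction c using MvPolynomial.induction_on' with
  | monomial u x =>
    have h0 : (monomial u x : MvPolynomial (Fin n) ℂ) = x • monomial u 1 := by
      rw [smul_monomial, smul_eq_mul, mul_one]
    have h1 : (∏ i, X i : MvPolynomial (Fin n) ℂ) * monomial u 1 =
        monomial ((Finsupp.equivFunOnFinite.symm fun _ => 1) + u) 1 := by
      rw [prodX_eq, monomial_mul, mul_one]
    rw [h0, mul_smul_comm, map_smul, h1, rt_monomial]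
    split_ifs with h2
    · refine ⟨x • monomial (dw a ((Finsupp.equivFunOnFinite.symm fun _ => 1) + u) -
        (Finsupp.equivFunOnFinite.symm fun _ => 1)) 1, ?_⟩
      rw [mul_smul_comm, prodX_eq, monomial_mul, mul_one, add_tsub_cancel_of_le]
      intro i
      rw [Finsupp.equivFunOnFinite_symm_apply_apply, dw_apply]
      have h3 := h2 i
      rw [Finsupp.add_apply, Finsupp.equivFunOnFinite_symm_apply_apply] at h3 ⊢
      exact Nat.div_pos (Nat.le_of_dvd (by omega) h3) (ha i)
    · exact ⟨0, by rw [smul_zero, mul_zero]⟩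
  | add p q hp hq =>
    obtain ⟨r, hr⟩ := hp
    obtain ⟨s, hs⟩ := hq
    exact ⟨r + s, by rw [mul_add, map_add, hr, hs, mul_add]⟩

/-- **The socle degree**, in a weak form. -/
theorem mem_jac (a : Fin n → ℕ) (e : ℕ) (h : MvPolynomial (Fin n) ℂ) (hQ : QHPoly a e h)
    (hae : ∀ i, a i < e) (r : ℕ) (hr : n * e < r + 2 * ∑ i, a i) (g : MvPolynomial (Fin n) ℂ)
    (hg : IsWeightedHomogeneous a g r) : g ∈ Ideal.span (Set.range fun i => pderiv i h) := by
  classical
  obtain ⟨ha, he, hh, hcrit⟩ := hQ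
  have hd : ∀ i, IsWeightedHomogeneous a (pderiv i h) (e - a i) := by
    intro i m hm
    rw [coeff_pderiv] at hm
    have h1 : coeff (m + Finsupp.single i 1) h ≠ 0 := fun h2 => hm (by rw [h2, zero_mul])
    have h2 := hh h1
    rw [map_add, Finsupp.weight_single, one_smul] at h2
    omega
  have h1 : xp a g * ∏ i, X i ^ (a i - 1) ∈
      Ideal.span (Set.range fun i => xp a (pderiv i h)) := by
    refine Pool.Agent.TH144.MB.macaulay (fun i => xp a (pderiv i h)) (fun i => e - a i)
      (fun i => xp_hom a _ _ (hd i)) (fun i => Nat.sub_pos_of_lt (hae i)) le_rfl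
      (fun v hv => ?_) (t := r + ∑ i, (a i - 1)) ?_ ?_
    · have h2 := hcrit (fun i => v i ^ a i) fun i => by rw [← eval_xp, hv i]
      funext i
      have h3 := congrFun h2 i
      exact pow_eq_zero_iff (ha i).ne' |>.1 h3
    · have h2 : ∑ i : Fin n, (a i - 1) + n = ∑ i, a i := by
        have h3 : ∑ i : Fin n, (a i - 1 + 1) = ∑ i, a i :=
          Finset.sum_congr rfl fun i _ => Nat.sub_add_cancel (ha i)
        rw [Finset.sum_add_distrib] at h3
        simpa using h3
      have h3 : ∑ i : Fin n, (e - a i - 1) + n + ∑ i, a i = n * e := by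
        have h4 : ∑ i : Fin n, (e - a i - 1 + 1 + a i) = ∑ _i : Fin n, e :=
          Finset.sum_congr rfl fun i _ => by
            have := hae i
            omega
        rw [Finset.sum_add_distrib, Finset.sum_add_distrib] at h4
        simpa using h4
      omega
    · refine (xp_hom a g r hg).mul ?_
      refine IsHomogeneous.prod _ _ _ fun i _ => ?_
      exact isHomogeneous_X_pow i (a i - 1)
  obtain ⟨c, hc⟩ := (Ideal.mem_span_range_iff_exists_fun).1 h1
  have h2 : (∏ i, X i) * g = rt a ((∏ i, X i) * (xp a g * ∏ i, X i ^ (a i - 1))) := by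
    have h3 : (∏ i, X i) * (xp a g * ∏ i, X i ^ (a i - 1)) = xp a (g * ∏ i, X i) := by
      have h4 : xp a (∏ i, X i) = ∏ i, X i ^ a i := by
        rw [map_prod]
        exact Finset.prod_congr rfl fun i _ => by rw [xp, aeval_X]
      have h5 : (∏ i, X i ^ a i : MvPolynomial (Fin n) ℂ) =
          (∏ i, X i) * ∏ i, X i ^ (a i - 1) := by
        rw [← Finset.prod_mul_distrib]
        exact Finset.prod_congr rfl fun i _ => by rw [← pow_succ', Nat.sub_add_cancel (ha i)]
      rw [map_mul, h4, h5]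
      ring
    rw [h3, rt_xp a ha, mul_comm]
  have h3 : ∀ i, ∃ s, rt a ((∏ i, X i) * c i) = (∏ i, X i) * s := fun i => rt_prodX a ha (c i)
  choose s hs using h3
  have h4 : (∏ i, X i) * g = (∏ i, X i) * ∑ i, s i * pderiv i h := by
    rw [h2, ← hc, Finset.mul_sum, map_sum, Finset.mul_sum]
    refine Finset.sum_congr rfl fun i _ => ?_
    have h5 : (∏ i, X i) * (c i * xp a (pderiv i h)) =
        xp a (pderiv i h) * ((∏ i, X i) * c i) := by ring
    rw [h5, rt_mul a ha, hs i]
    ring
  have h5 := mul_left_cancel₀ prodX_ne h4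
  rw [h5]
  exact Ideal.sum_mem _ fun i _ => Ideal.mul_mem_left _ _ (Ideal.subset_span ⟨i, rfl⟩)

/-- the numerical criterion for non-resonance -/
theorem noResonance_of (w : Fin (n + 1) → ℕ) (d : ℕ) (a : Fin n → ℕ) (e : ℕ)
    (h : MvPolynomial (Fin n) ℂ) (hQ : QHPoly a e h) (hae : ∀ i, a i < e)
    (hnum : n * (d * e) < (∑ i, w i) * e + d * (∑ i, a i + e)) : NoResonance w d a e h := by
  intro k r hk hr g hg
  refine mem_jac a e h hQ hae r ?_ g hg
  by_contra h1
  rw [not_lt] at h1
  have h2 : (r + 2 * ∑ i, a i) * d ≤ n * e * d := Nat.mul_le_mul_right d h1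
  have h3 : (r + 2 * ∑ i, a i) * d = (∑ i, w i + d * k) * e + (∑ i, a i) * d := by
    rw [← hr]
    ring
  have h4 : d * 1 ≤ d * k := Nat.mul_le_mul_left d hk
  have h5 : (∑ i, w i + d * 1) * e ≤ (∑ i, w i + d * k) * e :=
    Nat.mul_le_mul_right e (by omega)
  have h6 : (∑ i, w i + d * 1) * e + (∑ i, a i) * d =
      (∑ i, w i) * e + d * (∑ i, a i + e) := by ring
  have h7 : n * e * d = n * (d * e) := by ring
  omega

/-- the numerical criterion for the residue numbers -/
theorem noResidue_of (w : Fin (n + 1) → ℕ) (d κ : ℕ) (hd : 0 < d) (a : Fin n → ℕ) (e : ℕ)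
    (he : 0 < e) (h : (∑ i, w i) * e ≤ d * ∑ i, a i) : NoResidue w d κ a e := by
  intro l hl h1
  have h2 : (∑ i, w i) * ((d + κ) * e) = (∑ i, w i) * e * κ + d * ((∑ i, w i) * e) := by ring
  have h3 : d * (κ * ∑ i, a i + (∑ i, w i) * e) = d * (∑ i, a i) * κ + d * ((∑ i, w i) * e) := by
    ring
  have h4 : (∑ i, w i) * e * κ ≤ d * (∑ i, a i) * κ := Nat.mul_le_mul_right κ h
  have h5 : 0 < l * ((d + κ) * e) := Nat.mul_pos (by omega) (Nat.mul_pos (by omega) he)
  omega

end Pool.Agent.Helper48.WC
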