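import Pool.Agent.Helper48.WC.Lin
import Pool.Agent.Helper48.WC.Mac

set_option autoImplicit false
set_option linter.unusedSectionVars false

/-! # Fixed points of vector fields of weight zero -/

namespace Pool.Agent.Helper48.WC

open Finset MvPolynomial Pool.Agent.H628R4.TP Pool.Agent.K3h38.SM Pool.Agent.Helper48.SN
  Pool.Agent.Helper48.SW Pool.Agent.Helper48.TC

variable {N : ℕ} (w : Fin N → ℕ)

theorem le_weight (m : Fin N →₀ ℕ) (k : Fin N) (hk : m k ≠ 0) :
    w k ≤ Finsupp.weight w m := by
  rw [weight_sum]
  refine le_trans ?_ (Finset.single_le_sum (fun _ _ => Nat.zero_le _) (Finset.mem_univ k))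
  exact Nat.le_mul_of_pos_left _ (Nat.pos_of_ne_zero hk)

/-- a monomial of weight `W` which contains a variable of weight `≥ W` -/
theorem single_of_le (hw : ∀ i, 0 < w i) (m : Fin N →₀ ℕ) (W : ℕ)
    (hm : Finsupp.weight w m = W) (k : Fin N) (hk : m k ≠ 0) (hkW : W ≤ w k) :
    m = Finsupp.single k 1 ∧ w k = W := by
  have h1 : Finsupp.single k 1 ≤ m := by
    intro i
    rw [Finsupp.single_apply]
    split_ifs with h
    · rw [← h]
      exact Nat.one_le_iff_ne_zero.2 hk
    · exact Nat.zero_le _
  obtain ⟨β, rfl⟩ := exists_add_of_le h1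
  rw [map_add, Finsupp.weight_single, one_smul] at hm
  have h2 : Finsupp.weight w β = 0 := by omega
  have h3 := degree_le_weight w hw β
  have h4 := (Finsupp.degree_eq_zero_iff β).1 (by omega)
  rw [h4, add_zero]
  exact ⟨rfl, by omega⟩

/-- a polynomial of weight `W` depends on the variables of weight `≤ W` -/
theorem eval_agree (p : MvPolynomial (Fin N) ℂ) (W : ℕ) (hp : IsWeightedHomogeneous w p W)
    (x y : Fin N → ℂ) (h : ∀ k, w k ≤ W → x k = y k) : eval x p = eval y p := by
  rw [eval_eq, eval_eq]
  refine Finset.sum_congr rfl fun m hm => ?_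
  congr 1
  refine Finset.prod_congr rfl fun k hk => ?_
  rw [h k]
  rw [← hp (mem_support_iff.1 hm)]
  exact le_weight w m k (Finsupp.mem_support_iff.1 hk)

/-- the linear part of a polynomial of weight `W` in the variables of weight `W` -/
theorem eval_add_lin (hw : ∀ i, 0 < w i) (p : MvPolynomial (Fin N) ℂ) (W : ℕ)
    (hp : IsWeightedHomogeneous w p W) (x u : Fin N → ℂ) (hx : ∀ k, W ≤ w k → x k = 0)
    (hu : ∀ k, w k ≠ W → u k = 0) :
    eval (x + u) p = eval x p + ∑ k, coeff (Finsupp.single k 1) p * u k := by
  classical
  have h0 : ∀ k, coeff (Finsupp.single k 1) p * u k =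
      ∑ m ∈ p.support, if m = Finsupp.single k 1 then coeff m p * u k else 0 := by
    intro k
    rw [Finset.sum_ite_eq']
    split_ifs with h
    · rfl
    · rw [notMem_support_iff.1 h, zero_mul]
  rw [eval_eq, eval_eq, Finset.sum_congr rfl fun k _ => h0 k, Finset.sum_comm,
    ← Finset.sum_add_distrib]
  refine Finset.sum_congr rfl fun m hm => ?_
  have hmW := hp (mem_support_iff.1 hm)
  by_cases h : ∃ k, m k ≠ 0 ∧ W ≤ w k
  · obtain ⟨k, hk, hkW⟩ := h
    obtain ⟨h1, h2⟩ := single_of_le w hw m W hmW k hk hkW
    rw [Finset.sum_eq_single k]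
    · rw [if_pos h1, h1, Finsupp.support_single k one_ne_zero, Finset.prod_singleton,
        Finset.prod_singleton, Finsupp.single_eq_same, pow_one, pow_one, Pi.add_apply, hx k hkW]
      ring
    · intro j _ hj
      rw [if_neg]
      intro h3
      rw [h1] at h3
      exact hj (Finsupp.single_left_injective one_ne_zero h3).symm
    · intro h3
      exact absurd (Finset.mem_univ k) h3
  · push Not at h
    rw [Finset.sum_eq_zero, add_zero]
    · congr 1
      refine Finset.prod_congr rfl fun k hk => ?_
      rw [Pi.add_apply, hu k, add_zero]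
      exact (h k (Finsupp.mem_support_iff.1 hk)).ne
    · intro k _
      rw [if_neg]
      rintro rfl
      have h3 := h k (by rw [Finsupp.single_eq_same]; exact one_ne_zero)
      rw [Finsupp.weight_single, one_smul] at hmW
      omega

/-- the linear part of a vector field of weight `0` -/
noncomputable def linA (Θ : Fin N → MvPolynomial (Fin N) ℂ) : Matrix (Fin N) (Fin N) ℂ :=
  Matrix.of fun i j => coeff (Finsupp.single j 1) (Θ i)

/-- `α` is an eigenvalue of the linear part in the weight `m` -/
def Eig (Θ : Fin N → MvPolynomial (Fin N) ℂ) (α : ℂ) (m : ℕ) : Prop :=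
  ∃ v : Fin N → ℂ, v ≠ 0 ∧ (∀ k, w k ≠ m → v k = 0) ∧ ∀ i, ∑ j, linA Θ i j * v j = α * v i

theorem linA_ne (Θ : Fin N → MvPolynomial (Fin N) ℂ)
    (hΘ : ∀ i, IsWeightedHomogeneous w (Θ i) (w i)) (i j : Fin N) (h : w i ≠ w j) :
    linA Θ i j = 0 := by
  by_contra h1
  rw [linA, Matrix.of_apply] at h1
  have h2 := hΘ i h1
  rw [Finsupp.weight_single, one_smul] at h2
  exact h h2.symm

/-- **The fixed point.** -/
theorem exists_fix (hw : ∀ i, 0 < w i) (Θ : Fin N → MvPolynomial (Fin N) ℂ)
    (hΘ : ∀ i, IsWeightedHomogeneous w (Θ i) (w i)) (μ : ℂ) (m : ℕ)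
    (hE : Eig w Θ (μ * m) m) (hmax : ∀ m', m < m' → ¬ Eig w Θ (μ * m') m') :
    ∃ q : Fin N → ℂ, q ≠ 0 ∧ ∀ i, eval q (Θ i) = μ * (w i * q i) := by
  classical
  obtain ⟨v, hv0, hvs, hv⟩ := hE
  have key : ∀ M : ℕ, ∃ q : Fin N → ℂ, (∀ k, w k ≤ m → q k = v k) ∧
      (∀ k, m + M < w k → q k = 0) ∧
      ∀ i, w i ≤ m + M → eval q (Θ i) = μ * (w i * q i) := by
    intro M
    induction M with
    | zero =>
      refine ⟨v, fun _ _ => rfl, fun k hk => hvs k (by omega), fun i hi => ?_⟩
      have h1 : eval v (Θ i) = eval ((0 : Fin N → ℂ) + fun k => if w k = w i then v k else 0)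
          (Θ i) := by
        refine eval_agree w (Θ i) (w i) (hΘ i) _ _ fun k hk => ?_
        rw [Pi.add_apply, Pi.zero_apply, zero_add]
        split_ifs with h
        · rfl
        · exact hvs k (by omega)
      rw [h1, eval_add_lin w hw (Θ i) (w i) (hΘ i) 0 (fun k => if w k = w i then v k else 0)
        (fun _ _ => rfl) (fun k hk => if_neg hk)]
      have h2 : eval (0 : Fin N → ℂ) (Θ i) = 0 := by
        rw [eval_zero, constantCoeff_eq]
        by_contra h3
        have h4 := hΘ i h3
        rw [map_zero] at h4
        have := hw i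
        omega
      rw [h2, zero_add]
      have h3 : ∑ k, coeff (Finsupp.single k 1) (Θ i) * (if w k = w i then v k else 0) =
          ∑ k, linA Θ i k * v k := by
        refine Finset.sum_congr rfl fun k _ => ?_
        split_ifs with h
        · rw [linA, Matrix.of_apply]
        · rw [mul_zero, linA_ne w Θ hΘ i k (Ne.symm h), zero_mul]
      rw [h3, hv i]
      by_cases h4 : w i = m
      · rw [h4]
        ring
      · rw [hvs i h4]
        ring
    | succ M ih =>
      obtain ⟨q, hq1, hq2, hq3⟩ := ih
      set W : ℕ := m + (M + 1) with hW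
      let T : (Fin N → ℂ) →ₗ[ℂ] (Fin N → ℂ) :=
        { toFun := fun u i => if w i = W then μ * (W * u i) - ∑ j, linA Θ i j * u j else u i
          map_add' := fun u u' => by
            funext i
            simp only [Pi.add_apply, mul_add, Finset.sum_add_distrib]
            split_ifs
            · ring
            · rfl
          map_smul' := fun c u => by
            funext i
            simp only [Pi.smul_apply, smul_eq_mul, RingHom.id_apply]
            split_ifs
            · rw [mul_sub, Finset.mul_sum]
              congr 1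
              · ring
              · exact Finset.sum_congr rfl fun j _ => by ring
            · rfl }
      have hT : Function.Injective T := by
        rw [← LinearMap.ker_eq_bot, LinearMap.ker_eq_bot']
        intro u hu
        by_contra hu0
        apply hmax W (by omega)
        refine ⟨u, hu0, fun k hk => ?_, fun i => ?_⟩
        · have h1 := congrFun hu k
          change (if w k = W then _ else u k) = 0 at h1
          rwa [if_neg hk] at h1
        · have h1 := congrFun hu i
          change (if w i = W then μ * (W * u i) - ∑ j, linA Θ i j * u j else u i) = 0 at h1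
          split_ifs at h1 with h2
          · rw [← sub_eq_zero.1 h1]
            ring
          · rw [h1, mul_zero]
            refine Finset.sum_eq_zero fun j _ => ?_
            by_cases h3 : w j = W
            · rw [linA_ne w Θ hΘ i j (by rw [h3]; exact h2), zero_mul]
            · have h4 := congrFun hu j
              change (if w j = W then _ else u j) = 0 at h4
              rw [if_neg h3] at h4
              rw [h4, mul_zero]
      obtain ⟨u, hu⟩ := (LinearMap.injective_iff_surjective.1 hT)
        (fun i => if w i = W then eval q (Θ i) else 0)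
      have hu1 : ∀ k, w k ≠ W → u k = 0 := by
        intro k hk
        have h1 := congrFun hu k
        change (if w k = W then _ else u k) = (if w k = W then _ else 0) at h1
        rwa [if_neg hk, if_neg hk] at h1
      have hu2 : ∀ i, w i = W → μ * (W * u i) - ∑ j, linA Θ i j * u j = eval q (Θ i) := by
        intro i hi
        have h1 := congrFun hu i
        change (if w i = W then μ * (W * u i) - ∑ j, linA Θ i j * u j else u i) =
          (if w i = W then _ else 0) at h1
        rwa [if_pos hi, if_pos hi] at h1
      refine ⟨q + u, fun k hk => ?_, fun k hk => ?_, fun i hi => ?_⟩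
      · rw [Pi.add_apply, hq1 k hk, hu1 k (by omega), add_zero]
      · rw [Pi.add_apply, hq2 k (by omega), hu1 k (by omega), add_zero]
      · by_cases h1 : w i = W
        · rw [eval_add_lin w hw (Θ i) W (by rw [← h1]; exact hΘ i) q u
            (fun k hk => hq2 k (by omega)) hu1, Pi.add_apply, hq2 i (by omega), zero_add,
            ← hu2 i h1, h1]
          have h2 : ∑ k, coeff (Finsupp.single k 1) (Θ i) * u k = ∑ j, linA Θ i j * u j := rfl
          rw [h2]
          ring
        · have h2 : eval (q + u) (Θ i) = eval q (Θ i) := by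
            refine eval_agree w (Θ i) (w i) (hΘ i) _ _ fun k hk => ?_
            rw [Pi.add_apply, hu1 k (by omega), add_zero]
          rw [h2, hq3 i (by omega), Pi.add_apply, hu1 i h1, add_zero]
  obtain ⟨q, hq1, -, hq3⟩ := key (∑ i, w i)
  refine ⟨q, fun h => ?_, fun i => hq3 i ?_⟩
  · apply hv0
    funext k
    by_cases hk : w k = m
    · rw [← hq1 k hk.le, h]
    · exact hvs k hk
  · exact (Finset.single_le_sum (fun _ _ => Nat.zero_le _) (Finset.mem_univ i)).trans
      (Nat.le_add_left _ _)

end Pool.Agent.Helper48.WC
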