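import Pool.Agent.Helper48.WC.Defs
import Pool.Agent.Helper48.WC.Loc
import Pool.Agent.Helper48.TC.EP

set_option autoImplicit false
set_option linter.unusedSectionVars false

/-! # The charts of a weighted blow-up -/

namespace Pool.Agent.Helper48.WC

open Finset MvPolynomial Pool.Agent.H628R4.TP Pool.Agent.K3h38.SM Pool.Agent.Helper48.SN
  Pool.Agent.Helper48.SW Pool.Agent.Helper48.TC

variable {n : ℕ}

/-- the variable of the exceptional divisor -/
noncomputable def zz : PS (Fin (n + 1)) := MvPowerSeries.X (Fin.last n)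

theorem pp_zz_last : pp (Fin.last n) (zz : PS (Fin (n + 1))) = 1 := by
  rw [pp_apply, zz, MvPowerSeries.pderiv_X_self]

theorem pp_zz (i : Fin n) : pp i.castSucc (zz : PS (Fin (n + 1))) = 0 := by
  rw [pp_apply, zz, MvPowerSeries.pderiv_X_of_ne (Fin.castSucc_ne_last i).symm]

/-- the matrix of the chart, without the powers of `z` -/
noncomputable def smz (w : Fin (n + 1) → ℕ) (ξ : Fin (n + 1) → PS (Fin (n + 1))) :
    Matrix (Fin (n + 1)) (Fin (n + 1)) (PS (Fin (n + 1))) :=
  Matrix.of fun j i => Fin.lastCases (motive := fun _ => PS (Fin (n + 1)))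
    ((w j : PS (Fin (n + 1))) * ξ j + zz * pp (Fin.last n) (ξ j)) (fun i => pp i.castSucc (ξ j)) i

theorem jac_zz (w : Fin (n + 1) → ℕ) (hw : ∀ i, 0 < w i)
    (ξ : Fin (n + 1) → PS (Fin (n + 1))) :
    (jacS (fun j => zz ^ w j * ξ j)).det =
      (zz : PS (Fin (n + 1))) ^ (∑ i, w i - 1) * (smz w ξ).det := by
  have h1 : (zz : PS (Fin (n + 1))) * (jacS (fun j => zz ^ w j * ξ j)).det =
      zz ^ (∑ i, w i) * (smz w ξ).det := by
    have h2 := Matrix.det_mul_row (fun i : Fin (n + 1) => Fin.lastCases (motive := fun _ =>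
      PS (Fin (n + 1))) zz (fun _ => 1) i) (jacS (fun j => zz ^ w j * ξ j))
    have h3 := Matrix.det_mul_column (fun j : Fin (n + 1) => (zz : PS (Fin (n + 1))) ^ w j)
      (smz w ξ)
    rw [Fin.prod_univ_castSucc, Fin.lastCases_last,
      Finset.prod_congr rfl fun i _ => Fin.lastCases_castSucc i, Finset.prod_const_one, one_mul]
      at h2
    rw [Finset.prod_pow_eq_pow_sum] at h3
    rw [← h2, ← h3]
    congr 1
    ext1 j i
    rw [Matrix.of_apply, Matrix.of_apply]
    refine Fin.lastCases ?_ (fun i => ?_) i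
    · rw [Fin.lastCases_last]
      change zz * pp (Fin.last n) (zz ^ w j * ξ j) = _
      rw [pp_mul, pp_pow_one _ _ pp_zz_last]
      have h4 : smz w ξ j (Fin.last n) =
          (w j : PS (Fin (n + 1))) * ξ j + zz * pp (Fin.last n) (ξ j) := by
        rw [smz, Matrix.of_apply, Fin.lastCases_last]
      rw [h4]
      have h5 : (zz : PS (Fin (n + 1))) ^ w j = zz * zz ^ (w j - 1) := by
        rw [← pow_succ', Nat.sub_add_cancel (hw j)]
      rw [h5]
      ring
    · rw [Fin.lastCases_castSucc, one_mul]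
      change pp i.castSucc (zz ^ w j * ξ j) = _
      rw [pp_mul, pp_pow_zero _ _ (pp_zz i), mul_zero, add_zero]
      congr 1
      rw [smz, Matrix.of_apply, Fin.lastCases_castSucc]
  have h2 : 0 < ∑ i, w i := Finset.sum_pos (fun i _ => hw i) Finset.univ_nonempty
  have hz : (zz : PS (Fin (n + 1))) ≠ 0 := by
    intro h3
    have h4 := pp_zz_last (n := n)
    rw [h3, map_zero] at h4
    exact zero_ne_one h4
  refine mul_left_cancel₀ hz ?_
  rw [h1, ← mul_assoc, ← pow_succ', Nat.sub_add_cancel h2]

theorem det_smz (w : Fin (n + 1) → ℕ) (ξ : Fin (n + 1) → PS (Fin (n + 1)))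
    (q : Fin (n + 1) → ℂ) (hq : ∀ j, MvPowerSeries.constantCoeff (ξ j) = q j) :
    MvPowerSeries.constantCoeff (smz w ξ).det = (Matrix.of fun j i =>
      (Fin.lastCases ((w j : ℂ) * q j) (fun i =>
        MvPowerSeries.coeff (Finsupp.single (Fin.castSucc i) 1) (ξ j)) i : ℂ)).det := by
  rw [RingHom.map_det]
  congr 1
  ext j i
  rw [RingHom.mapMatrix_apply, Matrix.map_apply, Matrix.of_apply, smz, Matrix.of_apply]
  refine Fin.lastCases ?_ (fun i => ?_) i
  · rw [Fin.lastCases_last, Fin.lastCases_last, map_add, map_mul, map_mul, map_natCast, hq, zz,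
      MvPowerSeries.constantCoeff_X, zero_mul, add_zero]
  · rw [Fin.lastCases_castSucc, Fin.lastCases_castSucc, ← coeff_single]

theorem single_of_weight (v : Fin (n + 1) → ℕ) (hv : ∀ i, 0 < v i) (m : ℕ)
    (α : Fin (n + 1) →₀ ℕ) (h : Finsupp.weight v α ≤ m * v (Fin.last n))
    (h1 : Finsupp.single (Fin.last n) m ≤ α) : α = Finsupp.single (Fin.last n) m := by
  obtain ⟨β, rfl⟩ := exists_add_of_le h1
  rw [map_add, Finsupp.weight_single, smul_eq_mul] at h
  have h2 : Finsupp.weight v β = 0 := by omega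
  have h3 := degree_le_weight v hv β
  have h4 := (Finsupp.degree_eq_zero_iff β).1 (by omega)
  rw [h4, add_zero]

theorem init_zz (v : Fin (n + 1) → ℕ) (hv : ∀ i, 0 < v i) (m : ℕ) (g : PS (Fin (n + 1)))
    (D : ℂ) (hg : MvPowerSeries.constantCoeff g = D) :
    IsInit v (zz ^ m * g) (m * v (Fin.last n)) (C D * X (Fin.last n) ^ m) := by
  classical
  constructor
  · have h1 : IsWeightedHomogeneous v (X (Fin.last n) : MvPolynomial (Fin (n + 1)) ℂ)
      (v (Fin.last n)) := isWeightedHomogeneous_X ℂ v (Fin.last n)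
    have h3 := (h1.pow m).C_mul D
    rwa [smul_eq_mul] at h3
  · intro α hα
    rw [zz, MvPowerSeries.X_pow_eq, MvPowerSeries.coeff_monomial_mul, one_mul, coeff_C_mul,
      coeff_X_pow]
    by_cases h1 : Finsupp.single (Fin.last n) m ≤ α
    · have h2 := single_of_weight v hv m α hα h1
      rw [if_pos h1, if_pos h2.symm, h2, tsub_self, mul_one,
        MvPowerSeries.coeff_zero_eq_constantCoeff_apply, hg]
    · rw [if_neg h1, if_neg, mul_zero]
      rintro rfl
      exact h1 le_rfl

theorem coeff_aeval_w (w : Fin (n + 1) → ℕ) (ξ : Fin (n + 1) → PS (Fin n))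
    (f : MvPolynomial (Fin (n + 1)) ℂ) (m : Fin (n + 1) →₀ ℕ) :
    MvPowerSeries.coeff m (aeval (fun j => zz ^ w j * rn (ξ j)) f : PS (Fin (n + 1))) =
      MvPowerSeries.coeff (ey m)
        (aeval ξ (weightedHomogeneousComponent w (m (Fin.last n)) f) : PS (Fin n)) := by
  classical
  induction f using MvPolynomial.induction_on' with
  | monomial u a =>
    have h1 := isWeightedHomogeneous_monomial w u a (rfl : Finsupp.weight w u = _)
    rw [aeval_pow_rn zz w ξ _ _ h1]
    rw [zz, coeff_z_rn]
    split_ifs with h2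
    · rw [h2, h1.weightedHomogeneousComponent_same]
    · rw [h1.weightedHomogeneousComponent_ne _ h2, map_zero, map_zero]
  | add p q hp hq =>
    rw [map_add, map_add, map_add, map_add, map_add, hp, hq]

/-- the classical points -/
theorem ypoint_of_gap (w : Fin (n + 1) → ℕ) (f : MvPolynomial (Fin (n + 1)) ℂ) (d k : ℕ)
    (hf : Gap w f d k) (q : Fin (n + 1) → ℂ) (a : Fin n → ℕ) (e : ℕ)
    (h : MvPolynomial (Fin n) ℂ)
    (hq : SingPt (weightedHomogeneousComponent w d f) q)
    (h2 : eval q (weightedHomogeneousComponent w (d + k) f) ≠ 0)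
    (hQ : SemiQHSlice w (weightedHomogeneousComponent w d f) q a e h) :
    YPoint w f d q k a e h := by
  classical
  obtain ⟨hd, hk, hf0, hf1⟩ := hf
  obtain ⟨⟨ha, he, hh, hcrit⟩, ξ, ⟨hξq, hdet⟩, -, hξ⟩ := hQ
  have hcq : (fun j => MvPowerSeries.constantCoeff (ξ j)) = q := funext hξq
  have hgrad0 : ∀ i, eval 0 (pderiv i h) = 0 := by
    intro i
    have h1 := pp_aeval' ξ i (weightedHomogeneousComponent w d f)
    have h2 := congrArg MvPowerSeries.constantCoeff h1
    rw [map_sum, Finset.sum_eq_zero fun j _ => by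
      rw [map_mul, const_aeval, hcq, hq.2 j, zero_mul]] at h2
    rw [← MvPowerSeries.coeff_zero_eq_constantCoeff_apply, pp_apply, MvPowerSeries.coeff_pderiv,
      zero_add, Finsupp.coe_zero, Pi.zero_apply, Nat.cast_zero, zero_add, mul_one] at h2
    rw [eval_zero, constantCoeff_eq, coeff_pderiv, zero_add, Finsupp.coe_zero, Pi.zero_apply,
      Nat.cast_zero, zero_add, mul_one]
    by_contra h3
    have h4 := hh h3
    rw [← hξ _ h4.le] at h3
    exact h3 h2
  set c : ℂ := eval q (weightedHomogeneousComponent w (d + k) f) with hc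
  have hc' : MvPowerSeries.constantCoeff
      (aeval ξ (weightedHomogeneousComponent w (d + k) f) : PS (Fin n)) = c := by
    rw [const_aeval, hcq]
  refine ⟨⟨ha, he, hh, hcrit⟩, hgrad0, hk, fun j => rn (ξ j), c, h2, fun j => ?_, ?_, ?_, ?_⟩
  · rw [const_rn, hξq]
  · have h3 : (Matrix.of fun j i => (Fin.lastCases ((w j : ℂ) * q j) (fun i =>
        MvPowerSeries.coeff (Finsupp.single (Fin.castSucc i) 1) (rn (ξ j))) i : ℂ)) =
        Matrix.of fun j i => (Fin.lastCases ((w j : ℂ) * q j)
          (fun i => MvPowerSeries.coeff (Finsupp.single i 1) (ξ j)) i : ℂ) := by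
      ext j i
      rw [Matrix.of_apply, Matrix.of_apply]
      refine Fin.lastCases ?_ (fun i => ?_) i
      · rw [Fin.lastCases_last, Fin.lastCases_last]
      · rw [Fin.lastCases_castSucc, Fin.lastCases_castSucc, coeff_single, pp_rn, const_rn,
          ← MvPowerSeries.coeff_zero_eq_constantCoeff_apply, pp_apply, MvPowerSeries.coeff_pderiv,
          zero_add, Finsupp.coe_zero, Pi.zero_apply, Nat.cast_zero, zero_add, mul_one]
    rw [h3]
    exact hdet
  · change IsWeightedHomogeneous (vZ a k e) _ _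
    have h1 : IsWeightedHomogeneous (vZ a k e) (X (Fin.last n) : MvPolynomial (Fin (n + 1)) ℂ)
        e := by
      have h2 := isWeightedHomogeneous_X ℂ (vZ a k e) (Fin.last n)
      rwa [vZ, Fin.lastCases_last] at h2
    have h3 := h1.pow d
    rw [smul_eq_mul] at h3
    have h4 := (h1.pow k).C_mul c
    rw [smul_eq_mul] at h4
    have h5 := h3.mul (IsWeightedHomogeneous.add (hom_rename_Z a k e e h hh) h4)
    rwa [← add_mul] at h5
  · intro α hα
    have hcoe : ((X (Fin.last n) ^ d * (rename Fin.castSucc h + C c * X (Fin.last n) ^ k) :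
        MvPolynomial (Fin (n + 1)) ℂ) : PS (Fin (n + 1))) =
        (MvPowerSeries.X (Fin.last n) : PS (Fin (n + 1))) ^ d * rn (h : PS (Fin n)) +
        (MvPowerSeries.X (Fin.last n) : PS (Fin (n + 1))) ^ (d + k) *
          rn (MvPowerSeries.C c) := by
      have h1 : rn (h : PS (Fin n)) = ((rename Fin.castSucc h : MvPolynomial (Fin (n + 1)) ℂ) :
        PS (Fin (n + 1))) := MvPowerSeries.rename_coe _ h
      have h2 : rn (MvPowerSeries.C c : PS (Fin n)) = MvPowerSeries.C c :=
        MvPowerSeries.rename_C _ c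
      rw [h1, h2]
      push_cast
      ring
    have hα' : Finsupp.weight (vZ a k e) α ≤ (d + k) * e := hα
    have h0 := coeff_aeval_w w ξ f α
    rw [zz] at h0
    rw [h0, ← MvPolynomial.coeff_coe, hcoe, map_add, coeff_z_rn, coeff_z_rn]
    rw [weight_vZ] at hα'
    set l := α (Fin.last n) with hl
    have hde : (d + k) * e = d * e + k * e := by ring
    rcases lt_trichotomy l d with h1 | h1 | h1
    · rw [hf0 l h1, map_zero, map_zero, if_neg (by omega), if_neg (by omega), add_zero]
    · have hw' : Finsupp.weight a (ey α) ≤ e := by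
        rw [h1, hde] at hα'
        have h4 : k * Finsupp.weight a (ey α) ≤ k * e := by omega
        exact Nat.le_of_mul_le_mul_left h4 hk
      rw [if_pos h1, if_neg (by omega), add_zero, h1, hξ _ hw', MvPolynomial.coeff_coe]
    · rcases lt_trichotomy l (d + k) with h2 | h2 | h2
      · rw [hf1 l h1 h2, map_zero, map_zero, if_neg (by omega), if_neg (by omega), add_zero]
      · rw [if_neg (by omega), if_pos h2, zero_add, h2]
        have h3 : Finsupp.weight a (ey α) = 0 := by
          rw [h2] at hα'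
          have h4 : k * Finsupp.weight a (ey α) ≤ 0 := by omega
          rcases Nat.eq_zero_or_pos (Finsupp.weight a (ey α)) with h5 | h5
          · exact h5
          · have := Nat.mul_pos hk h5
            omega
        rw [ey_zero_iff a ha _ h3, MvPowerSeries.coeff_zero_eq_constantCoeff_apply, hc',
          MvPowerSeries.coeff_zero_eq_constantCoeff_apply, MvPowerSeries.constantCoeff_C]
      · exfalso
        have h3 : (d + k + 1) * e ≤ l * e := Nat.mul_le_mul_right e h2
        have h4 : (d + k + 1) * e = d * e + k * e + e := by ring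
        omega

end Pool.Agent.Helper48.WC
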