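import Pool.Agent.Helper48.WC.Cone
import Pool.Agent.Helper48.TC.Asm

set_option autoImplicit false
set_option linter.unusedSectionVars false

/-! # The eigenvalue of a vector field at a quasi-homogeneous singular point -/

namespace Pool.Agent.Helper48.WC

open Finset MvPolynomial Pool.Agent.H628R4.TP Pool.Agent.K3h38.SM Pool.Agent.Helper48.SN
  Pool.Agent.Helper48.SW Pool.Agent.Helper48.TC

variable {n : ℕ}

/-- the divergence modulo the Jacobian ideal -/
theorem div_mem (a : Fin n → ℕ) (e : ℕ) (he : 0 < e) (h : MvPolynomial (Fin n) ℂ)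
    (hh : IsWeightedHomogeneous a h e)
    (hcrit : ∀ y : Fin n → ℂ, (∀ i, eval y (pderiv i h) = 0) → y = 0) (d : ℕ)
    (r : ℤ) (q : Fin (n + 1) → MvPolynomial (Fin n) ℂ)
    (hE : ∑ j, EE a j * pderiv j (q (Fin.last n)) = C (r : ℂ) * q (Fin.last n))
    (h1 : ∑ i : Fin n, q i.castSucc * pderiv i h + q (Fin.last n) * (C (d : ℂ) * h) = 0) :
    ∑ i : Fin n, pderiv i (q i.castSucc) +
      C (d / e * (∑ i, (a i : ℂ) + r)) * q (Fin.last n) ∈ JJ h := by
  classical
  have heC : (e : ℂ) ≠ 0 := by exact_mod_cast he.ne'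
  obtain ⟨B, hB, hB0, hq⟩ := kos_crit h hcrit
    (fun i => q i.castSucc + C (d / e : ℂ) * (EE a i * q (Fin.last n))) (by
      have h3 : ∀ i, (q i.castSucc + C (d / e : ℂ) * (EE a i * q (Fin.last n))) * pderiv i h =
          q i.castSucc * pderiv i h + C (d / e : ℂ) * q (Fin.last n) *
            (EE a i * pderiv i h) := fun i => by ring
      rw [Finset.sum_congr rfl fun i _ => h3 i, Finset.sum_add_distrib, ← Finset.mul_sum,
        euler_w a h e hh]
      have h4 : C (d / e : ℂ) * C (e : ℂ) = (C (d : ℂ) : MvPolynomial (Fin n) ℂ) := by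
        rw [← C_mul, div_mul_cancel₀ _ heC]
      linear_combination h1 + q (Fin.last n) * h * h4)
  have h3 : ∑ i, pderiv i (q i.castSucc + C (d / e : ℂ) * (EE a i * q (Fin.last n))) ∈
      JJ h := by
    have h4 : ∑ i, pderiv i (q i.castSucc + C (d / e : ℂ) * (EE a i * q (Fin.last n))) =
        ∑ i, ∑ j, pderiv i (B i j) * pderiv j h +
          ∑ i, ∑ j, B i j * pderiv i (pderiv j h) := by
      rw [← Finset.sum_add_distrib]
      refine Finset.sum_congr rfl fun i _ => ?_
      have h5 := hq i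
      beta_reduce at h5
      rw [h5, map_sum, ← Finset.sum_add_distrib]
      refine Finset.sum_congr rfl fun j _ => ?_
      rw [pderiv_mul]
    have h5 : ∑ i, ∑ j, B i j * pderiv i (pderiv j h) = 0 := by
      refine anti_sum (fun i j => B i j * pderiv i (pderiv j h)) (fun i => ?_) fun i j => ?_
      · rw [hB0, zero_mul]
      · rw [hB i j, pderiv_comm i j]
        ring
    rw [h4, h5, add_zero]
    exact Ideal.sum_mem _ fun i _ => Ideal.sum_mem _ fun j _ =>
      Ideal.mul_mem_left _ _ (Ideal.subset_span ⟨j, rfl⟩)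
  have h4 : ∑ i, pderiv i (q i.castSucc + C (d / e : ℂ) * (EE a i * q (Fin.last n))) =
      ∑ i : Fin n, pderiv i (q i.castSucc) +
        C (d / e * (∑ i, (a i : ℂ) + r)) * q (Fin.last n) := by
    have h5 : ∀ i, pderiv i (q i.castSucc + C (d / e : ℂ) * (EE a i * q (Fin.last n))) =
        pderiv i (q i.castSucc) + C (d / e : ℂ) * (C (a i : ℂ) * q (Fin.last n) +
          EE a i * pderiv i (q (Fin.last n))) := by
      intro i
      rw [map_add, pderiv_C_mul, pderiv_mul]
      congr 3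
      rw [EE, pderiv_C_mul, pderiv_X_self, mul_one]
    rw [Finset.sum_congr rfl fun i _ => h5 i, Finset.sum_add_distrib, ← Finset.mul_sum,
      Finset.sum_add_distrib, hE, ← Finset.sum_mul]
    simp only [C_mul, C_add, map_sum]
    ring
  rwa [h4] at h3

theorem const_pp (i : Fin n) (g : PS (Fin n)) :
    MvPowerSeries.constantCoeff (pp i g) = MvPowerSeries.coeff (Finsupp.single i 1) g := by
  rw [← MvPowerSeries.coeff_zero_eq_constantCoeff_apply, pp_apply, MvPowerSeries.coeff_pderiv,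
    zero_add, Finsupp.coe_zero, Pi.zero_apply, Nat.cast_zero, zero_add, mul_one]

/-- the identity at the origin of the slice -/
theorem loc_zero (a : Fin n → ℕ) (ha : ∀ i, 0 < a i) (e : ℕ) (he : 0 < e)
    (h : MvPolynomial (Fin n) ℂ) (hh : IsWeightedHomogeneous a h e)
    (hcrit : ∀ y : Fin n → ℂ, (∀ i, eval y (pderiv i h) = 0) → y = 0)
    (hgrad : ∀ i, eval 0 (pderiv i h) = 0) (d κ : ℕ)
    (Q : Fin (n + 1) → PS (Fin n)) (t : PS (Fin n))
    (h1 : ∑ i : Fin n, Q i.castSucc * pp i (h : PS (Fin n)) +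
      Q (Fin.last n) * ((d : PS (Fin n)) * (h : PS (Fin n))) = 0)
    (h2 : ∑ i : Fin n, pp i (Q i.castSucc) + (κ : PS (Fin n)) * Q (Fin.last n) = t) :
    MvPowerSeries.constantCoeff (Q (Fin.last n)) * ((κ : ℂ) * e - d * ∑ i, (a i : ℂ)) =
      e * MvPowerSeries.constantCoeff t := by
  classical
  have heC : (e : ℂ) ≠ 0 := by exact_mod_cast he.ne'
  have hsm : ∀ (x : ℕ) (g : PS (Fin n)), (x : PS (Fin n)) * g = (x : ℂ) • g := by
    intro x g
    rw [← nsmul_eq_mul, Nat.cast_smul_eq_nsmul]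
  have h3 := div_mem a e he h hh hcrit d 0 (cmpv a Q 0) (by
    rw [cmpv_last]
    exact wz_self_euler a 0 _) (by
    have h3 := congrArg (wz a (0 + e)) h1
    rw [wz_add, wz_sum, wz_zero] at h3
    have h4 : ∀ i : Fin n, wz a (0 + e) (Q i.castSucc * pp i (h : PS (Fin n))) =
        cmpv a Q 0 i.castSucc * pderiv i h := by
      intro i
      rw [cmpv_succ, pp_coe]
      rcases hom_pderiv_w a h e hh i with h5 | ⟨b, hb, h5⟩
      · rw [h5, mul_zero, MvPolynomial.coe_zero, mul_zero, wz_zero]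
      · rw [mul_comm, wz_hom_mul a ha _ b h5, show 0 + (e : ℤ) - b = 0 + a i by
          rw [← hb]; push_cast; ring, mul_comm]
    have h5 : wz a (0 + e) (Q (Fin.last n) * ((d : PS (Fin n)) * (h : PS (Fin n)))) =
        cmpv a Q 0 (Fin.last n) * (C (d : ℂ) * h) := by
      have h6 : Q (Fin.last n) * ((d : PS (Fin n)) * (h : PS (Fin n))) =
          (d : ℂ) • ((h : PS (Fin n)) * Q (Fin.last n)) := by
        rw [← hsm]
        ring
      rw [h6, wz_smul, wz_hom_mul a ha h e hh, add_sub_cancel_right, cmpv_last, smul_eq_C_mul]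
      ring
    rw [Finset.sum_congr rfl fun i _ => h4 i, h5] at h3
    exact h3)
  have h4 : ∀ g ∈ JJ h, eval 0 g = 0 := by
    intro g hg
    obtain ⟨c, rfl⟩ := Ideal.mem_span_range_iff_exists_fun.1 hg
    rw [map_sum]
    exact Finset.sum_eq_zero fun i _ => by rw [map_mul, hgrad, mul_zero]
  have h5 := h4 _ h3
  rw [map_add, map_mul, eval_C, map_sum] at h5
  have h6 : ∀ i : Fin n, eval 0 (pderiv i (cmpv a Q 0 i.castSucc)) =
      MvPowerSeries.constantCoeff (pp i (Q i.castSucc)) := by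
    intro i
    rw [cmpv_succ, zero_add, eval_zero, constantCoeff_eq, coeff_pderiv, zero_add,
      Finsupp.coe_zero, Pi.zero_apply, Nat.cast_zero, zero_add, mul_one, coeff_wz a ha, if_pos,
      const_pp]
    rw [Finsupp.weight_single, one_smul]
  have h7 : eval 0 (cmpv a Q 0 (Fin.last n)) =
      MvPowerSeries.constantCoeff (Q (Fin.last n)) := by
    rw [cmpv_last, eval_zero, constantCoeff_eq, coeff_wz a ha, if_pos,
      MvPowerSeries.coeff_zero_eq_constantCoeff_apply]
    rw [map_zero, Nat.cast_zero]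
  rw [Finset.sum_congr rfl fun i _ => h6 i, h7] at h5
  have h8 := congrArg MvPowerSeries.constantCoeff h2
  rw [map_add, map_sum, map_mul, map_natCast] at h8
  have h9 : (d : ℂ) / e * (∑ i, (a i : ℂ) + ((0 : ℤ) : ℂ)) * e = d * ∑ i, (a i : ℂ) := by
    rw [Int.cast_zero, add_zero]
    field_simp
  rw [← h8]
  linear_combination (-(e : ℂ)) * h5 + MvPowerSeries.constantCoeff (Q (Fin.last n)) * h9

/-- **The eigenvalue of a vector field at a quasi-homogeneous singular point.** -/
theorem eig_sing (w : Fin (n + 1) → ℕ) (φ : MvPolynomial (Fin (n + 1)) ℂ) (d : ℕ)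
    (hφ : IsWeightedHomogeneous w φ d) (q : Fin (n + 1) → ℂ) (hq : SingPt φ q)
    (a : Fin n → ℕ) (e : ℕ) (h : MvPolynomial (Fin n) ℂ) (hQ : QHSlice w φ q a e h)
    (Θ : Fin (n + 1) → MvPolynomial (Fin (n + 1)) ℂ)
    (hΘ : ∀ i, IsWeightedHomogeneous w (Θ i) (w i)) (c : ℂ)
    (h1 : ∑ i, Θ i * pderiv i φ = 0) (h2 : ∑ i, pderiv i (Θ i) = C c) (μ : ℂ)
    (hμ : ∀ i, eval q (Θ i) = μ * (w i * q i)) :
    μ * (((∑ i, w i : ℕ) : ℂ) * e - d * ∑ i, (a i : ℂ)) = e * c := by
  classical
  obtain ⟨⟨ha, he, hh, hcrit⟩, ξ, ⟨hξq, hdet⟩, hξ⟩ := hQ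
  have hcq : (fun j => MvPowerSeries.constantCoeff (ξ j)) = q := funext hξq
  have hD : MvPowerSeries.constantCoeff (smw w ξ).det ≠ 0 := by
    rw [det_smw w ξ q hξq]
    exact hdet
  have hD0 : (smw w ξ).det ≠ 0 := by
    intro h3
    rw [h3, map_zero] at hD
    exact hD rfl
  have hgrad0 : ∀ i, eval 0 (pderiv i h) = 0 := by
    intro i
    have h1 := pp_aeval' ξ i φ
    have h2 := congrArg MvPowerSeries.constantCoeff h1
    rw [map_sum, Finset.sum_eq_zero fun j _ => by
      rw [map_mul, const_aeval, hcq, hq.2 j, zero_mul], hξ, pp_coe,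
      ← MvPowerSeries.coeff_zero_eq_constantCoeff_apply, MvPolynomial.coeff_coe] at h2
    rw [eval_zero, constantCoeff_eq]
    exact h2
  set θ : Fin (n + 1) → PS (Fin n) := fun j => aeval ξ (Θ j) with hθ
  have h3 := loc_zero a ha e he h hh hcrit hgrad0 d (∑ i, w i) (Qw w ξ θ)
    ((smw w ξ).det * MvPowerSeries.C c) (by
      have h3 := Qw_apply w ξ φ d hφ Θ
      rw [h1, map_zero, mul_zero, hξ] at h3
      exact h3) (by
      have h3 := Qw_div w ξ hD0 0 Θ (fun i => by rw [zero_add]; exact hΘ i)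
      rw [h2] at h3
      have h4 : (aeval ξ (C c : MvPolynomial (Fin (n + 1)) ℂ) : PS (Fin n)) =
          MvPowerSeries.C c := by
        rw [aeval_C]
        rfl
      rw [h4, add_zero] at h3
      exact h3)
  have h4 : MvPowerSeries.constantCoeff (Qw w ξ θ (Fin.last n)) =
      μ * MvPowerSeries.constantCoeff (smw w ξ).det := by
    have h5 := adj_smw w ξ (Fin.last n) (Fin.last n)
    rw [if_pos rfl] at h5
    rw [← h5, Qw, map_sum, map_sum, Finset.mul_sum]
    refine Finset.sum_congr rfl fun j _ => ?_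
    rw [map_mul, map_mul, smw_last, map_mul, map_natCast, hξq, hθ]
    beta_reduce
    rw [const_aeval, hcq, hμ]
    ring
  rw [h4, map_mul, MvPowerSeries.constantCoeff_C] at h3
  refine mul_right_cancel₀ hD ?_
  linear_combination h3

end Pool.Agent.Helper48.WC
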