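import Pool.Agent.Helper48.WC.Cert

set_option autoImplicit false
set_option linter.unusedSectionVars false

/-! # Weighted Lê–Yomdin singularities: the proofs of the statements -/

namespace Pool.Agent.Helper48.WC

open Finset MvPolynomial Pool.Agent.H628R4.TP Pool.Agent.K3h38.SM Pool.Agent.Helper48.SN
  Pool.Agent.Helper48.SW Pool.Agent.Helper48.TC Pool.Agent.Helper16.WM
open Pool.Agent.Helper48.LY (FromChart GlobalDatum LocalDatum StrongConjecture centred QHPoly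
  centred_zero trE trE_apply)

variable {n : ℕ}

theorem fromInit_pt (w : Fin (n + 1) → ℕ) (f : MvPolynomial (Fin (n + 1)) ℂ)
    (p : Fin (n + 1) → ℂ) (d : ℕ) (h0 : OrderGE w (centred p f) d)
    (hQ : Pool.Agent.Helper48.IF.NonexactForm w d (weightedHomogeneousComponent w d (centred p f))) :
    Pool.Agent.Helper48.IF.FromInitialForm f p d (∑ i, w i) := by
  obtain ⟨c, k, v, Ψ, φ, hφ, hcone, hν⟩ := SW.from_init w d
    (weightedHomogeneousComponent w d (centred p f)) (centred p f) hQ (init_of_order w _ d h0)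
  have h1 : tr 0 (centred p f) = centred p f := centred_zero _
  rw [h1] at hcone
  exact ⟨c, k, v, Ψ, φ, hφ, hcone, hν⟩

theorem t_cert (hn : 2 ≤ n) (w : Fin (n + 1) → ℕ) (f : MvPolynomial (Fin (n + 1)) ℂ)
    (p : Fin (n + 1) → ℂ) (d : ℕ) (hf : LeYomdin w (centred p f) d)
    (hQ : d = ∑ i, w i ∨
      Pool.Agent.Helper48.IF.NonexactForm w d (weightedHomogeneousComponent w d (centred p f)))
    (m ν : ℕ) (h : LYDatum w (centred p f) d m ν) :
    GlobalDatum f m ν ∧ (p = 0 → LocalDatum f m ν) := by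
  obtain ⟨hw, hd, h0, hfin, -⟩ := hf
  obtain ⟨hν, h⟩ := h
  have h' : ν = m ∨ (ν * d = m * ∑ i, w i ∧
      Pool.Agent.Helper48.IF.NonexactForm w d (weightedHomogeneousComponent w d (centred p f))) ∨
      ∃ q κ a e h, YPoint w (centred p f) d q κ a e h ∧ NoResidue w d κ a e ∧
        ν * ((d + κ) * e) = m * (κ * ∑ i, a i + (∑ i, w i) * e) := by
    rcases h with h | h | h
    · exact Or.inl h
    · rcases hQ with hQ | hQ
      · rw [← hQ] at h
        exact Or.inl (Nat.eq_of_mul_eq_mul_right hd h)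
      · exact Or.inr (Or.inl ⟨h, hQ⟩)
    · exact Or.inr (Or.inr h)
  clear hQ h
  obtain h | ⟨h, hQ⟩ | ⟨q, κ, a, e, g, hY, hlam, h⟩ := h'
  · obtain ⟨π, r, hπ, hπ0, hfr, hπr⟩ := simple_prime hn w hw (centred p f) d hd h0 hfin
    refine ⟨⟨hν, 1, 1, le_rfl, by rw [h], Or.inl (Or.inl ⟨rfl, (trE p).symm π, (trE p).symm r,
      ?_, ?_, ?_⟩)⟩, ?_⟩
    · exact (MulEquiv.prime_iff (trE p).symm.toMulEquiv).2 hπ
    · rw [← map_pow, ← map_mul, ← hfr, ← trE_apply, AlgEquiv.symm_apply_apply]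
    · intro h3
      apply hπr
      have h4 := map_dvd (trE p) h3
      rwa [AlgEquiv.apply_symm_apply, AlgEquiv.apply_symm_apply] at h4
    · rintro rfl
      rw [centred_zero] at hfr
      exact ⟨hν, 1, 1, le_rfl, by rw [h], Or.inl (Or.inl ⟨rfl, π, r, hπ, hπ0, hfr, hπr⟩)⟩
  · have h3 := fromInit_pt w f p d h0 hQ
    refine ⟨⟨hν, d, ∑ i, w i, hd, h, Or.inl (Or.inr ⟨p, h3⟩)⟩, ?_⟩
    rintro rfl
    exact ⟨hν, d, ∑ i, w i, hd, h, Or.inl (Or.inr fun H hH => ⟨0, hH, h3⟩)⟩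
  · have h3 := fromChart_Y (by omega) w hw f p d hd q κ a e g hY hlam
    have h4 : 1 ≤ (d + κ) * e := Nat.mul_pos (by omega) hY.1.2.1
    refine ⟨⟨hν, _, _, h4, h, Or.inr ⟨p, h3⟩⟩, ?_⟩
    rintro rfl
    exact ⟨hν, _, _, h4, h, Or.inr fun H hH => ⟨0, hH, h3⟩⟩

theorem t_LY (hn : 2 ≤ n) (w : Fin (n + 1) → ℕ) (f : MvPolynomial (Fin (n + 1)) ℂ) (d : ℕ)
    (hf : LeYomdin w f d)
    (hQ : d = ∑ i, w i ∨
      Pool.Agent.Helper48.IF.NonexactForm w d (weightedHomogeneousComponent w d f))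
    (b : Polynomial ℂ)
    (hb : IsBFunction f b ∨ IsLocalBFunction f b) (S : Type) [Fintype S] (Nν : S → ℕ × ℕ)
    (h : ∀ i, LYDatum w f d (Nν i).1 (Nν i).2) : StrongConjecture Nν b := by
  have hf0 : f ≠ 0 := by
    rintro rfl
    exact cone_ne hn w hf.1 _ hf.2.2.2.1 (map_zero _)
  have h1 : ∀ i, GlobalDatum f (Nν i).1 (Nν i).2 ∧ LocalDatum f (Nν i).1 (Nν i).2 := by
    intro i
    have h2 := t_cert hn w f 0 d (by rw [centred_zero]; exact hf) (by rw [centred_zero]; exact hQ)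
      (Nν i).1 (Nν i).2 (by rw [centred_zero]; exact h i)
    exact ⟨h2.1, h2.2 rfl⟩
  rcases hb with hb | hb
  · exact Pool.Agent.Helper48.LY.t_global _ f b hb S Nν fun i => (h1 i).1
  · exact Pool.Agent.Helper48.LY.t_local _ f hf0 b hb S Nν fun i => (h1 i).2

end Pool.Agent.Helper48.WC
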