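import Pool.Agent.Helper48.WC.Tr
import Pool.Agent.Helper48.WC.Mac
import Pool.Agent.Helper48.WC.Main

set_option autoImplicit false
set_option linter.unusedSectionVars false

/-! # Log canonical cones -/

namespace Pool.Agent.Helper48.WC

open Finset MvPolynomial Pool.Agent.H628R4.TP Pool.Agent.K3h38.SM Pool.Agent.Helper48.SN
  Pool.Agent.Helper48.SW Pool.Agent.Helper48.TC Pool.Agent.Helper16.WM
open Pool.Agent.Helper48.LY (FromChart GlobalDatum LocalDatum StrongConjecture centred QHPoly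
  centred_zero)

variable {n : ℕ}

theorem qhcone_of (w : Fin (n + 1) → ℕ) (φ : MvPolynomial (Fin (n + 1)) ℂ) (d : ℕ)
    (h : LCCone w φ d) : QHCone w φ d := by
  obtain ⟨hw, hd, hφ, hfin, hS⟩ := h
  have h1 : 0 < ∑ i, w i := Finset.sum_pos (fun i _ => hw i) Finset.univ_nonempty
  refine ⟨hw, by omega, hφ, hfin, fun q hq => ?_, fun Θ hΘ h2 => ?_⟩
  · obtain ⟨a, e, h, hQ, hR, -⟩ := hS q hq
    exact ⟨a, e, h, hQ, hR⟩
  · exact div_zero_w w hw φ d hd hφ (fun q hq => by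
      obtain ⟨a, e, h, hQ, -, hle⟩ := hS q hq
      exact ⟨a, e, h, hQ, hle⟩) Θ hΘ h2

theorem t_cert' (hn : 2 ≤ n) (w : Fin (n + 1) → ℕ) (f : MvPolynomial (Fin (n + 1)) ℂ)
    (p : Fin (n + 1) → ℂ) (d : ℕ) (hf : LeYomdin w (centred p f) d)
    (hQ : d = ∑ i, w i ∨ LCCone w (weightedHomogeneousComponent w d (centred p f)) d ∨
      Pool.Agent.Helper48.IF.NonexactForm w d (weightedHomogeneousComponent w d (centred p f)))
    (m ν : ℕ) (h : LYDatum w (centred p f) d m ν) :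
    GlobalDatum f m ν ∧ (p = 0 → LocalDatum f m ν) := by
  refine t_cert hn w f p d hf ?_ m ν h
  rcases hQ with hQ | hQ | hQ
  · exact Or.inl hQ
  · exact Or.inr (nonexact_cone w _ d (qhcone_of w _ d hQ))
  · exact Or.inr hQ

theorem t_LY' (hn : 2 ≤ n) (w : Fin (n + 1) → ℕ) (f : MvPolynomial (Fin (n + 1)) ℂ)
    (d : ℕ) (hf : LeYomdin w f d)
    (hQ : d = ∑ i, w i ∨ LCCone w (weightedHomogeneousComponent w d f) d ∨
      Pool.Agent.Helper48.IF.NonexactForm w d (weightedHomogeneousComponent w d f))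
    (b : Polynomial ℂ)
    (hb : IsBFunction f b ∨ IsLocalBFunction f b) (S : Type) [Fintype S] (Nν : S → ℕ × ℕ)
    (h : ∀ i, LYDatum w f d (Nν i).1 (Nν i).2) : StrongConjecture Nν b := by
  refine t_LY hn w f d hf ?_ b hb S Nν h
  rcases hQ with hQ | hQ | hQ
  · exact Or.inl hQ
  · exact Or.inr (nonexact_cone w _ d (qhcone_of w _ d hQ))
  · exact Or.inr hQ

end Pool.Agent.Helper48.WC
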