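import Pool.Agent.Helper48.TC.Rn
import Pool.Agent.Helper48.TC.Sl

set_option autoImplicit false
set_option linter.unusedSectionVars false

/-! # Vector fields on a slice of a weighted cone -/

namespace Pool.Agent.Helper48.WC

open Finset MvPolynomial Pool.Agent.H628R4.TP Pool.Agent.K3h38.SM Pool.Agent.Helper48.SN
  Pool.Agent.Helper48.SW Pool.Agent.Helper48.TC

variable {n : ℕ} (w : Fin (n + 1) → ℕ) (ξ : Fin (n + 1) → PS (Fin n))

/-- the matrix of the derivatives of `ξ` and of the weighted Euler field -/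
noncomputable def smw : Matrix (Fin (n + 1)) (Fin (n + 1)) (PS (Fin n)) :=
  Matrix.of fun j i => Fin.lastCases (motive := fun _ => PS (Fin n)) ((w j : PS (Fin n)) * ξ j)
    (fun i => pp i (ξ j)) i

theorem smw_succ (j : Fin (n + 1)) (i : Fin n) : smw w ξ j i.castSucc = pp i (ξ j) := by
  rw [smw, Matrix.of_apply, Fin.lastCases_castSucc]

theorem smw_last (j : Fin (n + 1)) : smw w ξ j (Fin.last n) = (w j : PS (Fin n)) * ξ j := by
  rw [smw, Matrix.of_apply, Fin.lastCases_last]

theorem adj_smw (i p : Fin (n + 1)) : ∑ j, (smw w ξ).adjugate i j * smw w ξ j p =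
    if i = p then (smw w ξ).det else 0 := by
  have h3 := congrFun (congrFun (Matrix.adjugate_mul (smw w ξ)) i) p
  rw [Matrix.mul_apply, Matrix.smul_apply, Matrix.one_apply, smul_eq_mul] at h3
  rw [h3]
  split_ifs
  · rw [mul_one]
  · rw [mul_zero]

theorem smw_adj (l j : Fin (n + 1)) : ∑ i, (smw w ξ).adjugate i j * smw w ξ l i =
    if l = j then (smw w ξ).det else 0 := by
  have h3 := congrFun (congrFun (Matrix.mul_adjugate (smw w ξ)) l) j
  rw [Matrix.mul_apply, Matrix.smul_apply, Matrix.one_apply, smul_eq_mul] at h3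
  have h4 : ∑ i, (smw w ξ).adjugate i j * smw w ξ l i =
      ∑ i, smw w ξ l i * (smw w ξ).adjugate i j :=
    Finset.sum_congr rfl fun i _ => mul_comm _ _
  rw [h4, h3]
  split_ifs
  · rw [mul_one]
  · rw [mul_zero]

/-- Piola's identity on the slice -/
theorem piola_w (hD : (smw w ξ).det ≠ 0) (j : Fin (n + 1)) :
    ∑ i : Fin n, pp i ((smw w ξ).adjugate i.castSucc j) +
      (((∑ l, w l : ℕ) : PS (Fin n)) - (w j : PS (Fin n))) *
        (smw w ξ).adjugate (Fin.last n) j = 0 := by
  classical
  set M := smw w ξ with hM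
  set W : PS (Fin n) := ((∑ l, w l : ℕ) : PS (Fin n)) with hW
  set T : Fin (n + 1) → PS (Fin n) := fun j => ∑ i : Fin n, pp i (M.adjugate i.castSucc j) +
      (W - (w j : PS (Fin n))) * M.adjugate (Fin.last n) j with hT
  have h0 : ∀ p, ∑ j, T j * M j p = ∑ i : Fin n, pp i (if i.castSucc = p then M.det else 0) -
      ∑ i : Fin n, ∑ j, M.adjugate i.castSucc j * pp i (M j p) +
        W * (if Fin.last n = p then M.det else 0) -
          ∑ j, (w j : PS (Fin n)) * (M.adjugate (Fin.last n) j * M j p) := by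
    intro p
    have h1 : ∀ i : Fin n, pp i (if i.castSucc = p then M.det else 0) =
        ∑ j, pp i (M.adjugate i.castSucc j) * M j p +
          ∑ j, M.adjugate i.castSucc j * pp i (M j p) := by
      intro i
      rw [← adj_smw w ξ i.castSucc p, map_sum, ← Finset.sum_add_distrib]
      refine Finset.sum_congr rfl fun j _ => ?_
      rw [pp_mul]
      ring
    rw [Finset.sum_congr rfl fun i _ => h1 i, Finset.sum_add_distrib, add_sub_cancel_right,
      ← adj_smw w ξ (Fin.last n) p, Finset.mul_sum, add_sub_assoc, ← Finset.sum_sub_distrib]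
    simp only [hT, add_mul, Finset.sum_mul, Finset.sum_add_distrib]
    rw [Finset.sum_comm]
    congr 1
    exact Finset.sum_congr rfl fun j _ => by ring
  have h1 : ∀ p, ∑ j, T j * M j p = 0 := by
    intro p
    rw [h0 p]
    refine Fin.lastCases ?_ (fun p => ?_) p
    · have h2 : ∀ i : Fin n, pp i (if i.castSucc = Fin.last n then M.det else 0) = 0 := by
        intro i
        rw [if_neg (Fin.castSucc_ne_last i), map_zero]
      have h3 : ∑ i : Fin n, ∑ j, M.adjugate i.castSucc j * pp i (M j (Fin.last n)) =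
          W * M.det - ∑ j, (w j : PS (Fin n)) *
            (M.adjugate (Fin.last n) j * M j (Fin.last n)) := by
        have h4 : ∀ j, (∑ i : Fin n, M.adjugate i.castSucc j * M j i.castSucc) +
            M.adjugate (Fin.last n) j * M j (Fin.last n) = M.det := by
          intro j
          have h5 := smw_adj w ξ j j
          rw [if_pos rfl, Fin.sum_univ_castSucc] at h5
          exact h5
        have h5 : ∀ (i : Fin n) (j : Fin (n + 1)), M.adjugate i.castSucc j *
            pp i (M j (Fin.last n)) = (w j : PS (Fin n)) *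
              (M.adjugate i.castSucc j * M j i.castSucc) := by
          intro i j
          have h6 : pp i (M j (Fin.last n)) = (w j : PS (Fin n)) * pp i (ξ j) := by
            rw [hM, smw_last, ← nsmul_eq_mul, map_nsmul, nsmul_eq_mul]
          rw [h6, hM, smw_succ]
          ring
        rw [Finset.sum_comm, Finset.sum_congr rfl fun j _ => Finset.sum_congr rfl fun i _ => h5 i j]
        have h6 : ∀ j, ∑ i : Fin n, (w j : PS (Fin n)) *
            (M.adjugate i.castSucc j * M j i.castSucc) =
            (w j : PS (Fin n)) * M.det - (w j : PS (Fin n)) *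
              (M.adjugate (Fin.last n) j * M j (Fin.last n)) := by
          intro j
          rw [← Finset.mul_sum, ← h4 j]
          ring
        rw [Finset.sum_congr rfl fun j _ => h6 j, Finset.sum_sub_distrib, ← Finset.sum_mul, hW]
        push_cast
        rfl
      rw [Finset.sum_eq_zero fun i _ => h2 i, h3, if_pos rfl]
      ring
    · have h2 : ∑ i : Fin n, pp i (if i.castSucc = p.castSucc then M.det else 0) = pp p M.det := by
        rw [Finset.sum_eq_single p]
        · rw [if_pos rfl]
        · intro i _ hi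
          rw [if_neg (fun h => hi (Fin.castSucc_injective n h)), map_zero]
        · intro h4
          exact absurd (Finset.mem_univ p) h4
      have h3 : ∑ i : Fin n, ∑ j, M.adjugate i.castSucc j * pp i (M j p.castSucc) =
          pp p M.det - ∑ j, (w j : PS (Fin n)) *
            (M.adjugate (Fin.last n) j * M j p.castSucc) := by
        have h4 : pp p M.det = ∑ i, ∑ j, M.adjugate i j * pp p (M j i) :=
          deriv_det (MvPowerSeries.pderiv ℂ p) M
        have h5 : ∀ j, M.adjugate (Fin.last n) j * pp p (M j (Fin.last n)) =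
            (w j : PS (Fin n)) * (M.adjugate (Fin.last n) j * M j p.castSucc) := by
          intro j
          have h6 : pp p (M j (Fin.last n)) = (w j : PS (Fin n)) * pp p (ξ j) := by
            rw [hM, smw_last, ← nsmul_eq_mul, map_nsmul, nsmul_eq_mul]
          rw [h6, hM, smw_succ]
          ring
        rw [h4, Fin.sum_univ_castSucc, Finset.sum_congr rfl fun j _ => h5 j, add_sub_cancel_right]
        refine Finset.sum_congr rfl fun i _ => Finset.sum_congr rfl fun j _ => ?_
        rw [hM, smw_succ, smw_succ, pp_comm i p (ξ j)]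
      rw [h2, h3, if_neg (Fin.castSucc_ne_last p).symm]
      ring
  have h2 : M.det * T j = 0 := by
    have h3 : ∑ p, (∑ j, T j * M j p) * M.adjugate p j = M.det * T j := by
      simp only [Finset.sum_mul]
      rw [Finset.sum_comm]
      have h4 : ∀ l, ∑ p, T l * M l p * M.adjugate p j = if l = j then M.det * T l else 0 := by
        intro l
        have h5 := smw_adj w ξ l j
        have h6 : ∑ p, T l * M l p * M.adjugate p j = T l * ∑ i, M.adjugate i j * M l i := by
          rw [Finset.mul_sum]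
          exact Finset.sum_congr rfl fun p _ => by ring
        rw [h6, hM, h5]
        split_ifs
        · ring
        · rw [mul_zero]
      rw [Finset.sum_congr rfl fun l _ => h4 l, Finset.sum_ite_eq', if_pos (Finset.mem_univ j)]
    rw [← h3]
    exact Finset.sum_eq_zero fun p _ => by rw [h1, zero_mul]
  exact (mul_eq_zero.1 h2).resolve_left hD

/-- the components of a vector field with respect to the slice -/
noncomputable def Qw (θ : Fin (n + 1) → PS (Fin n)) (i : Fin (n + 1)) : PS (Fin n) :=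
  ∑ j, (smw w ξ).adjugate i j * θ j

theorem aeval_euler (p : MvPolynomial (Fin (n + 1)) ℂ) (m : ℕ)
    (hp : IsWeightedHomogeneous w p m) :
    ∑ l, aeval ξ (pderiv l p) * smw w ξ l (Fin.last n) = (m : PS (Fin n)) * aeval ξ p := by
  have h3 := euler_w w p m hp
  have h4 := congrArg (aeval ξ) h3
  have hC : ∀ x : ℕ, (aeval ξ (C (x : ℂ) : MvPolynomial (Fin (n + 1)) ℂ) : PS (Fin n)) =
      (x : PS (Fin n)) := by
    intro x
    rw [map_natCast, map_natCast]
  rw [map_sum, map_mul, hC] at h4
  rw [← h4]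
  refine Finset.sum_congr rfl fun l _ => ?_
  rw [map_mul, EE, map_mul, hC, aeval_X, smw_last]
  ring

theorem Qw_apply (φ : MvPolynomial (Fin (n + 1)) ℂ) (d : ℕ) (hφ : IsWeightedHomogeneous w φ d)
    (Θ : Fin (n + 1) → MvPolynomial (Fin (n + 1)) ℂ) :
    ∑ i : Fin n, Qw w ξ (fun j => aeval ξ (Θ j)) i.castSucc * pp i (aeval ξ φ) +
      Qw w ξ (fun j => aeval ξ (Θ j)) (Fin.last n) * ((d : PS (Fin n)) * aeval ξ φ) =
      (smw w ξ).det * aeval ξ (∑ j, Θ j * pderiv j φ) := by
  classical
  have h1 : ∀ i : Fin n, pp i (aeval ξ φ) = ∑ l, aeval ξ (pderiv l φ) * smw w ξ l i.castSucc := by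
    intro i
    rw [pp_aeval']
    exact Finset.sum_congr rfl fun l _ => by rw [smw_succ]
  rw [← aeval_euler w ξ φ d hφ, Finset.sum_congr rfl fun i _ => by rw [h1 i]]
  have h3 : ∀ i, Qw w ξ (fun j => aeval ξ (Θ j)) i *
      (∑ l, aeval ξ (pderiv l φ) * smw w ξ l i) =
        ∑ l, ∑ j, aeval ξ (Θ j) * aeval ξ (pderiv l φ) *
          ((smw w ξ).adjugate i j * smw w ξ l i) := by
    intro i
    rw [Qw, Finset.mul_sum]
    refine Finset.sum_congr rfl fun l _ => ?_
    rw [Finset.sum_mul]
    exact Finset.sum_congr rfl fun j _ => by ring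
  have h4 := Fin.sum_univ_castSucc (fun i => Qw w ξ (fun j => aeval ξ (Θ j)) i *
      (∑ l, aeval ξ (pderiv l φ) * smw w ξ l i))
  rw [← h4, Finset.sum_congr rfl fun i _ => h3 i, Finset.sum_comm, map_sum, Finset.mul_sum]
  refine Finset.sum_congr rfl fun l _ => ?_
  rw [Finset.sum_comm]
  have h5 : ∀ j, ∑ i, aeval ξ (Θ j) * aeval ξ (pderiv l φ) *
      ((smw w ξ).adjugate i j * smw w ξ l i) =
        if l = j then (smw w ξ).det * (aeval ξ (Θ j) * aeval ξ (pderiv l φ)) else 0 := by
    intro j
    rw [← Finset.mul_sum, smw_adj]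
    split_ifs
    · ring
    · rw [mul_zero]
  rw [Finset.sum_congr rfl fun j _ => h5 j, Finset.sum_ite_eq, if_pos (Finset.mem_univ l), map_mul]

theorem Qw_div (hD : (smw w ξ).det ≠ 0) (m : ℕ)
    (Θ : Fin (n + 1) → MvPolynomial (Fin (n + 1)) ℂ)
    (hΘ : ∀ i, IsWeightedHomogeneous w (Θ i) (m + w i)) :
    ∑ i : Fin n, pp i (Qw w ξ (fun j => aeval ξ (Θ j)) i.castSucc) +
      ((∑ l, w l + m : ℕ) : PS (Fin n)) * Qw w ξ (fun j => aeval ξ (Θ j)) (Fin.last n) =
      (smw w ξ).det * aeval ξ (∑ j, pderiv j (Θ j)) := by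
  classical
  have h1 : ∀ i : Fin n, pp i (Qw w ξ (fun j => aeval ξ (Θ j)) i.castSucc) =
      ∑ j, pp i ((smw w ξ).adjugate i.castSucc j) * aeval ξ (Θ j) +
        ∑ j, ∑ l, aeval ξ (pderiv l (Θ j)) * ((smw w ξ).adjugate i.castSucc j *
          smw w ξ l i.castSucc) := by
    intro i
    rw [Qw, map_sum, ← Finset.sum_add_distrib]
    refine Finset.sum_congr rfl fun j _ => ?_
    rw [pp_mul, pp_aeval', Finset.mul_sum]
    have h2 : ∀ l, (smw w ξ).adjugate i.castSucc j * (aeval ξ (pderiv l (Θ j)) * pp i (ξ l)) =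
        aeval ξ (pderiv l (Θ j)) * ((smw w ξ).adjugate i.castSucc j * smw w ξ l i.castSucc) := by
      intro l
      rw [smw_succ]
      ring
    rw [Finset.sum_congr rfl fun l _ => h2 l]
    ring
  have h2 : ∑ j, ((m + w j : ℕ) : PS (Fin n)) * ((smw w ξ).adjugate (Fin.last n) j *
      aeval ξ (Θ j)) = ∑ j, ∑ l, aeval ξ (pderiv l (Θ j)) * ((smw w ξ).adjugate (Fin.last n) j *
          smw w ξ l (Fin.last n)) := by
    refine Finset.sum_congr rfl fun j _ => ?_
    have h5 : ((m + w j : ℕ) : PS (Fin n)) * ((smw w ξ).adjugate (Fin.last n) j * aeval ξ (Θ j)) =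
        (smw w ξ).adjugate (Fin.last n) j * (((m + w j : ℕ) : PS (Fin n)) * aeval ξ (Θ j)) := by
      ring
    rw [h5, ← aeval_euler w ξ (Θ j) (m + w j) (hΘ j), Finset.mul_sum]
    refine Finset.sum_congr rfl fun l _ => ?_
    ring
  have h3 : ∑ i : Fin n, ∑ j, pp i ((smw w ξ).adjugate i.castSucc j) * aeval ξ (Θ j) +
      ∑ j, (((∑ l, w l : ℕ) : PS (Fin n)) - (w j : PS (Fin n))) *
        ((smw w ξ).adjugate (Fin.last n) j * aeval ξ (Θ j)) = 0 := by
    rw [Finset.sum_comm, ← Finset.sum_add_distrib]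
    refine Finset.sum_eq_zero fun j _ => ?_
    have h4 := piola_w w ξ hD j
    rw [← Finset.sum_mul, ← mul_assoc, ← add_mul, h4, zero_mul]
  have h4 : ∑ i, ∑ j, ∑ l, aeval ξ (pderiv l (Θ j)) * ((smw w ξ).adjugate i j * smw w ξ l i) =
      (smw w ξ).det * aeval ξ (∑ j, pderiv j (Θ j)) := by
    rw [Finset.sum_comm, map_sum, Finset.mul_sum]
    refine Finset.sum_congr rfl fun j _ => ?_
    rw [Finset.sum_comm]
    have h5 : ∀ l, ∑ i, aeval ξ (pderiv l (Θ j)) * ((smw w ξ).adjugate i j * smw w ξ l i) =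
        if l = j then (smw w ξ).det * aeval ξ (pderiv l (Θ j)) else 0 := by
      intro l
      rw [← Finset.mul_sum, smw_adj]
      split_ifs
      · ring
      · rw [mul_zero]
    rw [Finset.sum_congr rfl fun l _ => h5 l, Finset.sum_ite_eq', if_pos (Finset.mem_univ j)]
  have h6 : ((∑ l, w l + m : ℕ) : PS (Fin n)) * Qw w ξ (fun j => aeval ξ (Θ j)) (Fin.last n) =
      ∑ j, (((∑ l, w l : ℕ) : PS (Fin n)) - (w j : PS (Fin n))) *
        ((smw w ξ).adjugate (Fin.last n) j * aeval ξ (Θ j)) +
      ∑ j, ((m + w j : ℕ) : PS (Fin n)) * ((smw w ξ).adjugate (Fin.last n) j *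
        aeval ξ (Θ j)) := by
    rw [Qw, Finset.mul_sum, ← Finset.sum_add_distrib]
    refine Finset.sum_congr rfl fun j _ => ?_
    push_cast
    ring
  rw [Fin.sum_univ_castSucc, ← h2] at h4
  rw [Finset.sum_congr rfl fun i _ => h1 i, Finset.sum_add_distrib, h6, ← h4]
  linear_combination h3

end Pool.Agent.Helper48.WC
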