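import Pool.Agent.Helper48.WC.Fix

set_option autoImplicit false
set_option linter.unusedSectionVars false

/-! # Vector fields of weight zero which annihilate `φ` have divergence zero -/

namespace Pool.Agent.Helper48.WC

open Finset MvPolynomial Pool.Agent.H628R4.TP Pool.Agent.K3h38.SM Pool.Agent.Helper48.SN
  Pool.Agent.Helper48.SW Pool.Agent.Helper48.TC

variable {n : ℕ}

theorem pd_lt {N : ℕ} (w : Fin N → ℕ) (p : MvPolynomial (Fin N) ℂ) (W : ℕ)
    (hp : IsWeightedHomogeneous w p W) (k : Fin N) (hk : W < w k) : pderiv k p = 0 := by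
  rcases hom_pderiv_w w p W hp k with h | ⟨b, hb, -⟩
  · exact h
  · omega

theorem pd_eq {N : ℕ} (w : Fin N → ℕ) (hw : ∀ i, 0 < w i) (p : MvPolynomial (Fin N) ℂ) (W : ℕ)
    (hp : IsWeightedHomogeneous w p W) (k : Fin N) (hk : w k = W) :
    pderiv k p = C (coeff (Finsupp.single k 1) p) := by
  classical
  ext m
  rw [coeff_C, coeff_pderiv]
  split_ifs with h
  · rw [← h, zero_add, Finsupp.coe_zero, Pi.zero_apply, Nat.cast_zero, zero_add, mul_one]
  · by_contra h1
    have h2 : coeff (m + Finsupp.single k 1) p ≠ 0 := fun h3 => h1 (by rw [h3, zero_mul])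
    have h3 := hp h2
    rw [map_add, Finsupp.weight_single, one_smul, hk] at h3
    have h4 := degree_le_weight w hw m
    exact h ((Finsupp.degree_eq_zero_iff m).1 (by omega)).symm

/-- an eigenvalue of a matrix -/
theorem root_iff {N : ℕ} (A : Matrix (Fin N) (Fin N) ℂ) (μ : ℂ) :
    μ ∈ A.charpoly.roots ↔ (Matrix.scalar _ μ - A).det = 0 := by
  rw [Polynomial.mem_roots (Matrix.charpoly_monic A).ne_zero, Polynomial.IsRoot.def,
    Matrix.eval_charpoly]

theorem root_vec {N : ℕ} (A : Matrix (Fin N) (Fin N) ℂ) (μ : ℂ) :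
    μ ∈ A.charpoly.roots ↔ ∃ v : Fin N → ℂ, v ≠ 0 ∧ ∀ i, ∑ j, A i j * v j = μ * v i := by
  rw [root_iff, ← Matrix.exists_mulVec_eq_zero_iff]
  refine exists_congr fun v => and_congr_right fun _ => ?_
  constructor
  · intro h i
    have h3 := congrFun h i
    rw [Matrix.sub_mulVec, Pi.sub_apply, Pi.zero_apply, sub_eq_zero, Matrix.scalar_apply,
      Matrix.mulVec_diagonal] at h3
    rw [h3]
    rfl
  · intro h
    funext i
    rw [Matrix.sub_mulVec, Pi.sub_apply, Pi.zero_apply, sub_eq_zero, Matrix.scalar_apply,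
      Matrix.mulVec_diagonal, ← h i]
    rfl

theorem root_covec {N : ℕ} (A : Matrix (Fin N) (Fin N) ℂ) (μ : ℂ) (g : Fin N → ℂ) (hg : g ≠ 0)
    (h : ∀ k, ∑ i, g i * A i k = μ * g k) : μ ∈ A.charpoly.roots := by
  rw [root_iff]
  refine Matrix.exists_vecMul_eq_zero_iff.1 ⟨g, hg, ?_⟩
  funext k
  rw [Matrix.vecMul_sub, Pi.sub_apply, Pi.zero_apply, sub_eq_zero, Matrix.scalar_apply,
    Matrix.vecMul_diagonal, mul_comm, ← h k]
  rfl

/-- **Vector fields of weight `0` which annihilate `φ`.** -/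
theorem div_zero_w (w : Fin (n + 1) → ℕ) (hw : ∀ i, 0 < w i)
    (φ : MvPolynomial (Fin (n + 1)) ℂ) (d : ℕ) (hd : ∑ i, w i ≤ d)
    (hφ : IsWeightedHomogeneous w φ d)
    (hS : ∀ q, SingPt φ q → ∃ a e h, QHSlice w φ q a e h ∧
      (∑ i, w i) * e ≤ d * ∑ i, a i)
    (Θ : Fin (n + 1) → MvPolynomial (Fin (n + 1)) ℂ)
    (hΘ : ∀ i, IsWeightedHomogeneous w (Θ i) (w i))
    (h1 : ∑ i, Θ i * pderiv i φ = 0) : ∑ i, pderiv i (Θ i) = 0 := by
  classical
  set A := linA Θ with hA
  set c : ℂ := A.trace with hc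
  have h2 : ∑ i, pderiv i (Θ i) = C c := by
    rw [hc, Matrix.trace, map_sum]
    refine Finset.sum_congr rfl fun i _ => ?_
    rw [pd_eq w hw (Θ i) (w i) (hΘ i) i rfl]
    rfl
  rw [h2]
  by_contra hc0'
  have hc0 : c ≠ 0 := fun h => hc0' (by rw [h, C_0])
  -- a `ℚ`-linear form with the value `1` at `c`
  obtain ⟨ℓ, hℓ⟩ : ∃ ℓ : ℂ →ₗ[ℚ] ℚ, ℓ c = 1 := by
    obtain ⟨g, hg⟩ := LinearMap.exists_leftInverse_of_injective
      (LinearMap.toSpanSingleton ℚ ℂ c) (by
        rw [LinearMap.ker_toSpanSingleton ℚ hc0])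
    refine ⟨g, ?_⟩
    have h3 := congrArg (fun F : ℚ →ₗ[ℚ] ℚ => F 1) hg
    simpa using h3
  have hℓq : ∀ (x : ℚ) (z : ℂ), ℓ ((x : ℂ) * z) = x * ℓ z := by
    intro x z
    have h7 : (x : ℂ) * z = x • z := by rw [Rat.smul_def]
    rw [h7, map_smul, smul_eq_mul]
  have hℓn : ∀ (x : ℕ) (z : ℂ), ℓ ((x : ℂ) * z) = x * ℓ z := by
    intro x z
    have h7 := hℓq (x : ℚ) z
    rwa [Rat.cast_natCast] at h7
  -- the eigenvalues of the linear part
  have hblock : ∀ (α : ℂ) (v : Fin (n + 1) → ℂ), (∀ i, ∑ j, A i j * v j = α * v i) →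
      ∀ k, v k ≠ 0 → Eig w Θ α (w k) := by
    intro α v hv k hk
    refine ⟨fun j => if w j = w k then v j else 0, fun h3 => ?_, fun j hj => if_neg hj,
      fun i => ?_⟩
    · have h4 := congrFun h3 k
      beta_reduce at h4
      rw [if_pos rfl] at h4
      exact hk h4
    · change ∑ j, linA Θ i j * (if w j = w k then v j else 0) =
        α * (if w i = w k then v i else 0)
      by_cases h3 : w i = w k
      · rw [if_pos h3, ← hv i]
        refine Finset.sum_congr rfl fun j _ => ?_
        split_ifs with h4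
        · rfl
        · rw [hA, linA_ne w Θ hΘ i j (by rw [h3]; exact Ne.symm h4), zero_mul, zero_mul]
      · rw [if_neg h3, mul_zero]
        refine Finset.sum_eq_zero fun j _ => ?_
        split_ifs with h4
        · rw [linA_ne w Θ hΘ i j (by rw [h4]; exact h3), zero_mul]
        · rw [mul_zero]
  have hEigs : ∀ α m, Eig w Θ α m → α ∈ A.charpoly.roots ∧ m ∈ Finset.univ.image w := by
    rintro α m ⟨v, hv0, hvs, hv⟩
    refine ⟨(root_vec A α).2 ⟨v, hv0, hv⟩, ?_⟩
    obtain ⟨k, hk⟩ : ∃ k, v k ≠ 0 := by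
      by_contra h3
      push Not at h3
      exact hv0 (funext h3)
    rw [Finset.mem_image]
    refine ⟨k, Finset.mem_univ k, ?_⟩
    by_contra h3
    exact hk (hvs k h3)
  obtain ⟨α₀, m₀, hE₀, hα₀⟩ : ∃ α m, Eig w Θ α m ∧ 0 < ℓ α := by
    by_contra hcon
    push Not at hcon
    have h3 : ∀ α ∈ A.charpoly.roots, ℓ α ≤ 0 := by
      intro α hα
      obtain ⟨v, hv0, hv⟩ := (root_vec A α).1 hα
      obtain ⟨k, hk⟩ : ∃ k, v k ≠ 0 := by
        by_contra h3
        push Not at h3
        exact hv0 (funext h3)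
      exact hcon α (w k) (hblock α v hv k hk)
    have h4 : ((A.charpoly.roots).map ℓ).sum = 1 := by
      rw [← map_multiset_sum, ← Matrix.trace_eq_sum_roots_charpoly, ← hc, hℓ]
    have h5 := Multiset.sum_le_card_nsmul ((A.charpoly.roots).map ℓ) 0 (by
      intro x hx
      obtain ⟨ν, hν, rfl⟩ := Multiset.mem_map.1 hx
      exact h3 ν hν)
    rw [smul_zero, h4] at h5
    linarith
  set F : Finset (ℂ × ℕ) := (A.charpoly.roots.toFinset ×ˢ (Finset.univ.image w)).filter
    (fun x => Eig w Θ x.1 x.2) with hF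
  have hmemF : ∀ α m, Eig w Θ α m → (α, m) ∈ F := by
    intro α m h3
    rw [hF, Finset.mem_filter, Finset.mem_product, Multiset.mem_toFinset]
    exact ⟨hEigs α m h3, h3⟩
  obtain ⟨⟨α, m⟩, hαF, hmax⟩ := Finset.exists_max_image F
    (fun x => toLex ((ℓ x.1 / (x.2 : ℚ) : ℚ), x.2)) ⟨_, hmemF _ _ hE₀⟩
  have hE : Eig w Θ α m := (Finset.mem_filter.1 hαF).2
  have hm0 : 0 < m := by
    obtain ⟨k, -, hk⟩ := Finset.mem_image.1 (hEigs α m hE).2
    rw [← hk]
    exact hw k
  have hmQ : (0 : ℚ) < m := by exact_mod_cast hm0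
  have hmC : (m : ℂ) ≠ 0 := by exact_mod_cast hm0.ne'
  set μ : ℂ := α / m with hμ
  set L : ℚ := ℓ α / m with hL
  have hμm : μ * m = α := by rw [hμ, div_mul_cancel₀ _ hmC]
  have hℓμ : ℓ μ = L := by
    have h3 := hℓn m μ
    rw [mul_comm, hμm] at h3
    rw [hL, h3, mul_div_cancel_left₀ _ hmQ.ne']
  have hmax' : ∀ α' m', Eig w Θ α' m' → 0 < m' ∧
      (ℓ α' < m' * L ∨ (ℓ α' = m' * L ∧ m' ≤ m)) := by
    intro α' m' h3
    have hm' : 0 < m' := by
      obtain ⟨k, -, hk⟩ := Finset.mem_image.1 (hEigs α' m' h3).2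
      rw [← hk]
      exact hw k
    have hm'Q : (0 : ℚ) < m' := by exact_mod_cast hm'
    refine ⟨hm', ?_⟩
    have h4 := hmax _ (hmemF α' m' h3)
    beta_reduce at h4
    rw [Prod.Lex.toLex_le_toLex] at h4
    rcases h4 with h4 | ⟨h4, h5⟩
    · left
      change ℓ α' / m' < L at h4
      rw [div_lt_iff₀ hm'Q] at h4
      rwa [mul_comm]
    · right
      change ℓ α' / m' = L at h4
      refine ⟨?_, h5⟩
      rw [← h4, mul_div_cancel₀ _ hm'Q.ne']
  have hLpos : 0 < L := by
    obtain ⟨h3, h4⟩ := hmax' α₀ m₀ hE₀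
    have hm'Q : (0 : ℚ) < m₀ := by exact_mod_cast h3
    have h5 : 0 < (m₀ : ℚ) * L := by
      rcases h4 with h4 | ⟨h4, -⟩
      · linarith
      · linarith
    exact (mul_pos_iff_of_pos_left hm'Q).1 h5
  obtain ⟨q, hq0, hq⟩ := exists_fix w hw Θ hΘ μ m (by rw [hμm]; exact hE) (by
    intro m' hm' h3
    obtain ⟨-, h4⟩ := hmax' _ _ h3
    have h5 : ℓ (μ * m') = m' * L := by rw [mul_comm, hℓn, hℓμ]
    rcases h4 with h4 | ⟨-, h4⟩
    · rw [h5] at h4
      exact lt_irrefl _ h4
    · omega)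
  by_cases hsing : ∀ j, eval q (pderiv j φ) = 0
  · obtain ⟨a, e, h, hQ, hle⟩ := hS q ⟨hq0, hsing⟩
    have h3 := eig_sing w φ d hφ q ⟨hq0, hsing⟩ a e h hQ Θ hΘ c h1 h2 μ hq
    have he : 0 < e := hQ.1.2.1
    have h4 : ((∑ i, w i : ℕ) : ℂ) * e - d * ∑ i, (a i : ℂ) =
        (((((∑ i, w i) * e : ℕ) : ℚ) - ((d * ∑ i, a i : ℕ) : ℚ) : ℚ) : ℂ) := by
      push_cast
      ring
    rw [h4, mul_comm μ] at h3
    have h6 := congrArg ℓ h3
    rw [hℓq, hℓn, hℓ, hℓμ, mul_one] at h6
    have h5 : ((((∑ i, w i) * e : ℕ) : ℚ) - ((d * ∑ i, a i : ℕ) : ℚ)) ≤ 0 := by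
      have : (((∑ i, w i) * e : ℕ) : ℚ) ≤ ((d * ∑ i, a i : ℕ) : ℚ) := by exact_mod_cast hle
      linarith
    have h8 := mul_nonpos_of_nonpos_of_nonneg h5 hLpos.le
    have h9 : (0 : ℚ) < e := by exact_mod_cast he
    linarith
  · push Not at hsing
    set g : Fin (n + 1) → ℂ := fun k => eval q (pderiv k φ) with hg
    have hg0 : g ≠ 0 := by
      obtain ⟨j, hj⟩ := hsing
      intro h3
      exact hj (congrFun h3 j)
    set B : Matrix (Fin (n + 1)) (Fin (n + 1)) ℂ := Matrix.of fun i k =>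
      eval q (pderiv k (Θ i)) - if i = k then μ * w k else 0 with hB
    have hgB : ∀ k, ∑ i, g i * B i k = (-(d : ℂ) * μ) * g k := by
      intro k
      have h3 := congrArg (fun p => eval q (pderiv k p)) h1
      beta_reduce at h3
      rw [map_sum, map_zero, map_zero, map_sum] at h3
      have h4 : ∀ i, eval q (pderiv k (Θ i * pderiv i φ)) =
          g i * eval q (pderiv k (Θ i)) +
            μ * (w i * q i * eval q (pderiv i (pderiv k φ))) := by
        intro i
        rw [pderiv_mul, map_add, map_mul, map_mul, hq, pderiv_comm k i, hg]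
        ring
      rw [Finset.sum_congr rfl fun i _ => h4 i, Finset.sum_add_distrib, ← Finset.mul_sum] at h3
      have h5 : ∑ i, (w i : ℂ) * q i * eval q (pderiv i (pderiv k φ)) =
          ((d : ℂ) - w k) * g k := by
        rcases hom_pderiv_w w φ d hφ k with h6 | ⟨b, hb, h6⟩
        · rw [hg]
          beta_reduce
          rw [h6, map_zero, mul_zero]
          exact Finset.sum_eq_zero fun i _ => by rw [map_zero, map_zero, mul_zero]
        · have h7 := congrArg (eval q) (euler_w _ _ _ h6)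
          rw [map_sum, map_mul, eval_C] at h7
          have h8 : (d : ℂ) - w k = b := by
            rw [← hb]
            push_cast
            ring
          rw [h8, ← h7]
          refine Finset.sum_congr rfl fun i _ => ?_
          rw [map_mul, EE, map_mul, eval_C, eval_X]
      rw [h5] at h3
      have h6 : ∑ i, g i * B i k = ∑ i, g i * eval q (pderiv k (Θ i)) - g k * (μ * w k) := by
        have h7 : ∀ i, g i * B i k = g i * eval q (pderiv k (Θ i)) -
            (if i = k then g i * (μ * w k) else 0) := by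
          intro i
          rw [hB, Matrix.of_apply]
          split_ifs
          · ring
          · ring
        rw [Finset.sum_congr rfl fun i _ => h7 i, Finset.sum_sub_distrib, Finset.sum_ite_eq',
          if_pos (Finset.mem_univ k)]
      rw [h6]
      linear_combination h3
    have hβ := root_covec B _ g hg0 hgB
    have hroots : ∀ ρ ∈ B.charpoly.roots, ℓ ρ ≤ 0 := by
      intro ρ hρ
      obtain ⟨v, hv0, hv⟩ := (root_vec B ρ).1 hρ
      obtain ⟨k, hk⟩ : ∃ k, v k ≠ 0 := by
        by_contra h3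
        push Not at h3
        exact hv0 (funext h3)
      obtain ⟨k₀, hk₀, hmin⟩ := Finset.exists_min_image (Finset.univ.filter fun k => v k ≠ 0) w
        ⟨k, by rw [Finset.mem_filter]; exact ⟨Finset.mem_univ k, hk⟩⟩
      rw [Finset.mem_filter] at hk₀
      have hmin' : ∀ j, w j < w k₀ → v j = 0 := by
        intro j hj
        by_contra h3
        have := hmin j (by rw [Finset.mem_filter]; exact ⟨Finset.mem_univ j, h3⟩)
        omega
      have hEρ : Eig w Θ (ρ + μ * w k₀) (w k₀) := by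
        refine ⟨fun j => if w j = w k₀ then v j else 0, fun h3 => ?_, fun j hj => if_neg hj,
          fun i => ?_⟩
        · have h4 := congrFun h3 k₀
          beta_reduce at h4
          rw [if_pos rfl] at h4
          exact hk₀.2 h4
        · change ∑ j, linA Θ i j * (if w j = w k₀ then v j else 0) =
            (ρ + μ * w k₀) * (if w i = w k₀ then v i else 0)
          by_cases h3 : w i = w k₀
          · rw [if_pos h3]
            have h4 := hv i
            have h5 : ∀ j, B i j * v j = A i j * (if w j = w k₀ then v j else 0) -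
                (if i = j then μ * w j * v j else 0) := by
              intro j
              rw [hB, Matrix.of_apply]
              rcases lt_trichotomy (w j) (w k₀) with h6 | h6 | h6
              · rw [hmin' j h6]
                split_ifs <;> ring
              · rw [if_pos h6, pd_eq w hw (Θ i) (w i) (hΘ i) j (by rw [h6, h3]), eval_C, hA,
                  linA, Matrix.of_apply]
                split_ifs <;> ring
              · rw [if_neg (show ¬ w j = w k₀ by omega),
                  pd_lt w (Θ i) (w i) (hΘ i) j (by omega), map_zero]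
                split_ifs <;> ring
            rw [Finset.sum_congr rfl fun j _ => h5 j, Finset.sum_sub_distrib,
              Finset.sum_ite_eq, if_pos (Finset.mem_univ i), h3] at h4
            linear_combination h4
          · rw [if_neg h3, mul_zero]
            refine Finset.sum_eq_zero fun j _ => ?_
            split_ifs with h4
            · rw [linA_ne w Θ hΘ i j (by rw [h4]; exact h3), zero_mul]
            · rw [mul_zero]
      obtain ⟨-, h3⟩ := hmax' _ _ hEρ
      have h4 : ℓ (ρ + μ * w k₀) = ℓ ρ + w k₀ * L := by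
        rw [map_add, mul_comm μ, hℓn, hℓμ]
      rw [h4] at h3
      rcases h3 with h3 | ⟨h3, -⟩
      · linarith
      · linarith
    obtain ⟨t, ht⟩ := Multiset.exists_cons_of_mem hβ
    have h3 := Multiset.sum_le_card_nsmul (t.map ℓ) 0 (by
      intro x hx
      obtain ⟨ν, hν, rfl⟩ := Multiset.mem_map.1 hx
      exact hroots ν (by rw [ht]; exact Multiset.mem_cons_of_mem hν))
    rw [smul_zero] at h3
    have h4 : ((B.charpoly.roots).map ℓ).sum = ℓ B.trace := by
      rw [← map_multiset_sum, ← Matrix.trace_eq_sum_roots_charpoly]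
    have h5 : B.trace = c - ((∑ i, w i : ℕ) : ℂ) * μ := by
      rw [hc, Matrix.trace, Matrix.trace]
      push_cast
      rw [Finset.sum_mul, ← Finset.sum_sub_distrib]
      refine Finset.sum_congr rfl fun i _ => ?_
      rw [Matrix.diag_apply, Matrix.diag_apply, hB, Matrix.of_apply, if_pos rfl,
        pd_eq w hw (Θ i) (w i) (hΘ i) i rfl, eval_C, hA, linA, Matrix.of_apply]
      ring
    rw [ht, Multiset.map_cons, Multiset.sum_cons, h5, map_sub, hℓ, hℓn, hℓμ] at h4
    have h6 : ℓ (-(d : ℂ) * μ) = -(d * L) := by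
      rw [neg_mul, map_neg, hℓn, hℓμ]
    rw [h6] at h4
    have h7 : ((∑ i, w i : ℕ) : ℚ) ≤ d := by exact_mod_cast hd
    have h8 : ((∑ i, w i : ℕ) : ℚ) * L ≤ d * L := mul_le_mul_of_nonneg_right h7 hLpos.le
    linarith

end Pool.Agent.Helper48.WC
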